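import Mathlib

/-!
# Finite type invariants of links and of string links (MP_5b16f0_gt)

Model: ordered oriented links are closed braids whose components are numbered, modulo conjugation
and stabilization (theorems of Alexander and Markov); string links are partially closed braids: the
strands `0, …, m-1` are open, the other strands are closed.  Singular links are closures of singular
braids (Birman).
-/

set_option autoImplicit false

noncomputable section

namespace Pool.Agent.K1H35.LK

/-! ## Braid groups -/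

/-- The relators of Artin's presentation, for infinitely many strands `0, 1, 2, …`. -/
def rels : Set (FreeGroup ℕ) :=
  {r | (∃ i, r = FreeGroup.of i * FreeGroup.of (i + 1) * FreeGroup.of i *
          (FreeGroup.of (i + 1) * FreeGroup.of i * FreeGroup.of (i + 1))⁻¹) ∨
       (∃ i j, i + 2 ≤ j ∧
          r = FreeGroup.of i * FreeGroup.of j * (FreeGroup.of j * FreeGroup.of i)⁻¹)}

/-- The braid group on infinitely many strands (the union of the braid groups on `N` strands). -/
abbrev Br : Type := PresentedGroup rels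

/-- The generator `σ_i`: the strands at the positions `i` and `i + 1` cross. -/
def s (i : ℕ) : Br := PresentedGroup.of i

/-- The braid group on the strands `0, …, N-1`, generated by `σ_0, …, σ_{N-2}`. -/
def BN (N : ℕ) : Subgroup Br := Subgroup.closure {x | ∃ i, i + 1 < N ∧ x = s i}

/-- The braid group on the strands `m, …, N-1`, generated by `σ_m, …, σ_{N-2}`. -/
def BC (m N : ℕ) : Subgroup Br := Subgroup.closure {x | ∃ i, m ≤ i ∧ i + 1 < N ∧ x = s i}

theorem s_braid (i : ℕ) : s i * s (i + 1) * s i = s (i + 1) * s i * s (i + 1) := by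
  have h : (PresentedGroup.mk rels) (FreeGroup.of i * FreeGroup.of (i + 1) * FreeGroup.of i *
          (FreeGroup.of (i + 1) * FreeGroup.of i * FreeGroup.of (i + 1))⁻¹) = 1 :=
    PresentedGroup.one_of_mem (Or.inl ⟨i, rfl⟩)
  have h2 : s i * s (i + 1) * s i * (s (i + 1) * s i * s (i + 1))⁻¹ = 1 := h
  exact mul_inv_eq_one.mp h2

theorem s_comm {i j : ℕ} (hij : i + 2 ≤ j) : s i * s j = s j * s i := by
  have h : (PresentedGroup.mk rels) (FreeGroup.of i * FreeGroup.of j *
      (FreeGroup.of j * FreeGroup.of i)⁻¹) = 1 :=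
    PresentedGroup.one_of_mem (Or.inr ⟨i, j, hij, rfl⟩)
  have h2 : s i * s j * (s j * s i)⁻¹ = 1 := h
  exact mul_inv_eq_one.mp h2

/-- Homomorphisms out of `Br`. -/
def lift {G : Type} [Group G] (f : ℕ → G) (h1 : ∀ i, f i * f (i + 1) * f i = f (i + 1) * f i * f (i + 1))
    (h2 : ∀ i j, i + 2 ≤ j → f i * f j = f j * f i) : Br →* G :=
  PresentedGroup.toGroup (f := f) (by
    rintro r (⟨i, rfl⟩ | ⟨i, j, hij, rfl⟩)
    · simp only [map_mul, map_inv, FreeGroup.lift_apply_of]
      rw [h1 i, mul_inv_cancel]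
    · simp only [map_mul, map_inv, FreeGroup.lift_apply_of]
      rw [h2 i j hij, mul_inv_cancel])

@[simp] theorem lift_s {G : Type} [Group G] (f : ℕ → G)
    (h1 : ∀ i, f i * f (i + 1) * f i = f (i + 1) * f i * f (i + 1))
    (h2 : ∀ i j, i + 2 ≤ j → f i * f j = f j * f i) (i : ℕ) : lift f h1 h2 (s i) = f i :=
  PresentedGroup.toGroup.of _

/-- The permutation of the positions of a braid. -/
def pm : Br →* Equiv.Perm ℕ :=
  lift (fun i => Equiv.swap i (i + 1))
    (by
      intro i
      ext x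
      simp only [Equiv.Perm.mul_apply, Equiv.swap_apply_def]
      split_ifs <;> omega)
    (by
      intro i j hij
      ext x
      simp only [Equiv.Perm.mul_apply, Equiv.swap_apply_def]
      split_ifs <;> omega)

@[simp] theorem pm_s (i : ℕ) : pm (s i) = Equiv.swap i (i + 1) := lift_s _ _ _ i

/-- The pure braid group on the strands `0, …, N-1`. -/
def PN (N : ℕ) : Subgroup Br := pm.ker ⊓ BN N

/-- The lower central series of the pure braid group: `Gam N n` is `Γ_{n+1}(P_N)`. -/
def Gam (N : ℕ) : ℕ → Subgroup Br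
  | 0 => PN N
  | n + 1 => ⁅Gam N n, PN N⁆

/-! ## Partially closed braids and string links -/

/-- The permutation `p` of the positions of a braid on `N` strands, the first `m` of which are open,
is the permutation of a string link: every strand belongs to the component of exactly one open
strand. -/
def Ok (m N : ℕ) (p : Equiv.Perm ℕ) : Prop :=
  (∀ a < N, ∃ i < m, p.SameCycle i a) ∧ (∀ i < m, ∀ j < m, p.SameCycle i j → i = j)

/-- A braid together with a number `k` of closed strands. -/
structure RD where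
  /-- the number of closed strands -/
  k : ℕ
  /-- the braid -/
  b : Br

/-- The braid `d.b` on the strands `0, …, m + k - 1`, the strands `m, …, m + k - 1` of which are
closed, is a string link with `m` strands. -/
def Val (m : ℕ) (d : RD) : Prop := d.b ∈ BN (m + d.k) ∧ Ok m (m + d.k) (pm d.b)

/-- Isotopies of partially closed braids: conjugation with a braid on the closed strands, and
stabilization (a new closed strand is added at any place of the braid). -/
inductive Mv (m : ℕ) : RD → RD → Prop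
  | conj (k : ℕ) (b g : Br) (hg : g ∈ BC m (m + k)) : Mv m ⟨k, b⟩ ⟨k, g * b * g⁻¹⟩
  | stab (k : ℕ) (x y : Br) (h : 0 < m + k) (hx : x ∈ BN (m + k)) (hy : y ∈ BN (m + k)) :
      Mv m ⟨k, x * y⟩ ⟨k + 1, x * s (m + k - 1) * y⟩
  | stabInv (k : ℕ) (x y : Br) (h : 0 < m + k) (hx : x ∈ BN (m + k)) (hy : y ∈ BN (m + k)) :
      Mv m ⟨k, x * y⟩ ⟨k + 1, x * (s (m + k - 1))⁻¹ * y⟩

/-- Diagrams of string links with `m` strands: partially closed braids. -/
def SData (m : ℕ) : Type := {d : RD // Val m d}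

/-- String links with `m` strands. -/
def SLink (m : ℕ) : Type := Quot (fun d e : SData m => Mv m d.1 e.1)

/-! ## Links -/

/-- A closed braid whose components are numbered by `Fin m`. -/
structure LData (m : ℕ) where
  /-- the number of strands -/
  N : ℕ
  /-- the braid -/
  b : Br
  /-- the number of the component of a strand -/
  col : ℕ → Fin m
  mem : b ∈ BN N
  surj : ∀ i, ∃ a < N, col a = i
  cyc : ∀ a < N, ∀ c < N, (col a = col c ↔ (pm b).SameCycle a c)

/-- Markov moves. -/
inductive LMove (m : ℕ) : LData m → LData m → Prop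
  | conj (l l' : LData m) (g : Br) (hg : g ∈ BN l.N) (hN : l'.N = l.N) (hb : l'.b = g * l.b * g⁻¹)
      (hc : ∀ a < l.N, l'.col (pm g a) = l.col a) : LMove m l l'
  | stab (l l' : LData m) (h : 0 < l.N) (hN : l'.N = l.N + 1)
      (hb : l'.b = l.b * s (l.N - 1) ∨ l'.b = l.b * (s (l.N - 1))⁻¹)
      (hc : ∀ a < l.N, l'.col a = l.col a) : LMove m l l'

/-- Ordered oriented links with `m` components. -/
def Link (m : ℕ) : Type := Quot (LMove m)

/-! ## Finite type invariants -/

/-- The extension of a function of braids to singular braids. The singular braid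
`y τ_{i_1} z_1 τ_{i_2} z_2 ⋯` (where `τ_i` is the double point of the strands at the positions `i`,
`i + 1`) is given by `y` and the list `(i_1, z_1), (i_2, z_2), …`; a double point is resolved as
positive crossing minus negative crossing. -/
def res {A : Type} [AddCommGroup A] (f : Br → A) : List (ℕ × Br) → Br → A
  | [], y => f y
  | (i, z) :: S, y => res f S (y * s i * z) - res f S (y * (s i)⁻¹ * z)

/-- The singular braid `(y, S)` has `N` strands. -/
def Sing (N : ℕ) (S : List (ℕ × Br)) (y : Br) : Prop :=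
  y ∈ BN N ∧ ∀ p ∈ S, p.1 + 1 < N ∧ p.2 ∈ BN N

open Classical in
/-- The value of the string link invariant `v` at the partially closed braid `b` with `k` closed
strands (and `0` if this is not a string link). -/
def evS {m : ℕ} {A : Type} [AddCommGroup A] (v : SLink m → A) (k : ℕ) (b : Br) : A :=
  if h : Val m ⟨k, b⟩ then v (Quot.mk _ ⟨⟨k, b⟩, h⟩) else 0

/-- `v` is a string link invariant of type `n`: it vanishes on all singular string links with `n + 1`
double points. -/
def STypeLE {m : ℕ} {A : Type} [AddCommGroup A] (n : ℕ) (v : SLink m → A) : Prop :=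
  ∀ (k : ℕ) (S : List (ℕ × Br)) (y : Br), Sing (m + k) S y → S.length = n + 1 →
    res (evS v k) S y = 0

/-- `b` closes to a link the components of which are numbered by `col`. -/
def LVal (m N : ℕ) (col : ℕ → Fin m) (b : Br) : Prop :=
  b ∈ BN N ∧ (∀ i, ∃ a < N, col a = i) ∧
    ∀ a < N, ∀ c < N, (col a = col c ↔ (pm b).SameCycle a c)

open Classical in
/-- The value of the link invariant `v` at the closed braid `b` with the components numbered by
`col` (and `0` if `col` does not number the components). -/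
def evL {m : ℕ} {A : Type} [AddCommGroup A] (v : Link m → A) (N : ℕ) (col : ℕ → Fin m) (b : Br) : A :=
  if h : LVal m N col b then v (Quot.mk _ ⟨N, b, col, h.1, h.2.1, h.2.2⟩) else 0

/-- `v` is a link invariant of type `n`. -/
def LTypeLE {m : ℕ} {A : Type} [AddCommGroup A] (n : ℕ) (v : Link m → A) : Prop :=
  ∀ (N : ℕ) (col : ℕ → Fin m) (S : List (ℕ × Br)) (y : Br), Sing N S y → S.length = n + 1 →
    res (evL v N col) S y = 0

/-- Two string links are not separated by type `n` invariants of string links. -/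
def NotSep {m : ℕ} (n : ℕ) (x y : SLink m) : Prop :=
  ∀ (A : Type) [AddCommGroup A] (v : SLink m → A), STypeLE n v → v x = v y

/-- `l` is the closure of the string link diagram `d`: the same braid, and the component of the
`i`-th open strand has the number `i`. -/
def IsClosure {m : ℕ} (d : RD) (l : LData m) : Prop :=
  l.N = m + d.k ∧ l.b = d.b ∧ ∀ i : Fin m, l.col i = i

/-- `L` and `L'` are closures of string links which are not separated by type `n` invariants. -/
def Base {m : ℕ} (n : ℕ) (L L' : Link m) : Prop :=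
  ∃ (d d' : SData m) (l l' : LData m), NotSep n (Quot.mk _ d) (Quot.mk _ d') ∧
    IsClosure d.1 l ∧ IsClosure d'.1 l' ∧ L = Quot.mk _ l ∧ L' = Quot.mk _ l'

/-- The relation `L ≈_n L'` of the problem. -/
def Approx {m : ℕ} (n : ℕ) : Link m → Link m → Prop := Relation.EqvGen (Base n)

/-! ## Tools -/

/-- The embedding of the braid group which leaves the strands `0, …, m-1` where they are and moves
the other strands by one place to the right (in front of the new strand `m`). -/
def psi (m : ℕ) : Br →* Br :=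
  lift (fun i => if i + 1 < m then s i else if i + 1 = m then s m * s i * (s m)⁻¹ else s (i + 1))
    (by
      intro i
      have hc : ∀ a b : Br, a * b * a = b * a * b → b⁻¹ * a * b = a * b * a⁻¹ := by
        intro a b h
        have : b * (b⁻¹ * a * b) * a = b * (a * b * a⁻¹) * a := by
          calc b * (b⁻¹ * a * b) * a = a * b * a := by group
            _ = b * a * b := h
            _ = b * (a * b * a⁻¹) * a := by group
        exact mul_left_cancel (mul_right_cancel this)
      rcases lt_trichotomy (i + 1) m with h | h | h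
      · rcases lt_or_eq_of_le (Nat.succ_le_of_lt h) with h' | h'
        · have h'' : i + 1 + 1 < m := h'
          rw [if_pos h, if_pos h'']
          exact s_braid i
        · have h'' : i + 1 + 1 = m := h'
          have h1 : ¬ (i + 1 + 1 < m) := by omega
          rw [if_pos h, if_neg h1, if_pos h'']
          have hcm : s i * s m = s m * s i := s_comm (by omega)
          have e1 : s m * s (i + 1) * (s m)⁻¹ = s m * s (i + 1) * (s m)⁻¹ := rfl
          have hci : s m * s i * (s m)⁻¹ = s i := by rw [← hcm]; group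
          have hb := s_braid i
          calc s i * (s m * s (i + 1) * (s m)⁻¹) * s i
              = (s m * s i * (s m)⁻¹) * (s m * s (i + 1) * (s m)⁻¹) * (s m * s i * (s m)⁻¹) := by
                rw [hci]
            _ = s m * (s i * s (i + 1) * s i) * (s m)⁻¹ := by group
            _ = s m * (s (i + 1) * s i * s (i + 1)) * (s m)⁻¹ := by rw [hb]
            _ = (s m * s (i + 1) * (s m)⁻¹) * (s m * s i * (s m)⁻¹) * (s m * s (i + 1) * (s m)⁻¹) := by
                group
            _ = (s m * s (i + 1) * (s m)⁻¹) * s i * (s m * s (i + 1) * (s m)⁻¹) := by rw [hci]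
      · have h1 : ¬ (i + 1 < m) := by omega
        have h2 : ¬ (i + 1 + 1 < m) := by omega
        have h3 : ¬ (i + 1 + 1 = m) := by omega
        rw [if_neg h1, if_pos h, if_neg h2, if_neg h3]
        subst h
        have hb := s_braid i
        have hx : s (i + 1) * s i * (s (i + 1))⁻¹ = (s i)⁻¹ * s (i + 1) * s i := by
          have := hc (s (i + 1)) (s i) hb.symm
          rw [this]
        rw [hx]
        have hcm : s i * s (i + 1 + 1) = s (i + 1 + 1) * s i := s_comm (by omega)
        have hci : (s i)⁻¹ * s (i + 1 + 1) * s i = s (i + 1 + 1) := by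
          rw [mul_assoc, ← hcm]; group
        have hb2 := s_braid (i + 1)
        calc (s i)⁻¹ * s (i + 1) * s i * s (i + 1 + 1) * ((s i)⁻¹ * s (i + 1) * s i)
            = (s i)⁻¹ * s (i + 1) * s i * ((s i)⁻¹ * s (i + 1 + 1) * s i) *
                ((s i)⁻¹ * s (i + 1) * s i) := by rw [hci]
          _ = (s i)⁻¹ * (s (i + 1) * s (i + 1 + 1) * s (i + 1)) * s i := by group
          _ = (s i)⁻¹ * (s (i + 1 + 1) * s (i + 1) * s (i + 1 + 1)) * s i := by rw [hb2]
          _ = ((s i)⁻¹ * s (i + 1 + 1) * s i) * ((s i)⁻¹ * s (i + 1) * s i) *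
                ((s i)⁻¹ * s (i + 1 + 1) * s i) := by group
          _ = s (i + 1 + 1) * ((s i)⁻¹ * s (i + 1) * s i) * s (i + 1 + 1) := by rw [hci]
      · have h1 : ¬ (i + 1 < m) := by omega
        have h1' : ¬ (i + 1 = m) := by omega
        have h2 : ¬ (i + 1 + 1 < m) := by omega
        have h3 : ¬ (i + 1 + 1 = m) := by omega
        rw [if_neg h1, if_neg h1', if_neg h2, if_neg h3]
        exact s_braid (i + 1))
    (by
      intro i j hij
      rcases lt_trichotomy (j + 1) m with h | h | h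
      · have h1 : i + 1 < m := by omega
        rw [if_pos h1, if_pos h]
        exact s_comm hij
      · have h0 : ¬ (j + 1 < m) := by omega
        have h1 : i + 1 < m := by omega
        rw [if_pos h1, if_neg h0, if_pos h]
        have c1 : Commute (s i) (s j) := s_comm hij
        have c2 : Commute (s i) (s m) := s_comm (by omega)
        exact ((c2.mul_right c1).mul_right c2.inv_right)
      · have h0 : ¬ (j + 1 < m) := by omega
        have h0' : ¬ (j + 1 = m) := by omega
        rw [if_neg h0, if_neg h0']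
        by_cases h1 : i + 1 < m
        · rw [if_pos h1]
          exact s_comm (by omega)
        · by_cases h2 : i + 1 = m
          · rw [if_neg h1, if_pos h2]
            have c1 : Commute (s i) (s (j + 1)) := s_comm (by omega)
            have c2 : Commute (s m) (s (j + 1)) := s_comm (by omega)
            exact ((c2.mul_left c1).mul_left c2.inv_left)
          · rw [if_neg h1, if_neg h2]
            exact s_comm (by omega))

theorem psi_s (m i : ℕ) : psi m (s i) =
    if i + 1 < m then s i else if i + 1 = m then s m * s i * (s m)⁻¹ else s (i + 1) := lift_s _ _ _ i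


/-- `k`-fold iteration of `psi m`. -/
def psiK (m : ℕ) : ℕ → (Br →* Br)
  | 0 => MonoidHom.id _
  | k + 1 => (psi m).comp (psiK m k)

/-- The product of partially closed braids (composition of string links). -/
def mul (m : ℕ) (d e : RD) : RD := ⟨d.k + e.k, d.b * psiK m d.k e.b⟩

/-- The trivial string link. -/
def one : RD := ⟨0, 1⟩

/-- Isotopy of partially closed braids. -/
def Mk (m : ℕ) : RD → RD → Prop :=
  Relation.EqvGen (fun d e => Val m d ∧ Val m e ∧ Mv m d e)

/-- `e` arises from `d` by the insertion of an element of `Γ_{n+1}` of the pure braid group. -/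
def Ins (m n : ℕ) (d e : RD) : Prop := d.k = e.k ∧ ∃ x ∈ Gam (m + d.k) n, e.b = d.b * x

/-- Equivalence modulo `Γ_{n+1}` of the pure braid groups. -/
def Eqn (m n : ℕ) : RD → RD → Prop :=
  Relation.EqvGen (fun d e => Val m d ∧ Val m e ∧ (Mv m d e ∨ Ins m n d e))

/-- `σ_{i+t-1} ⋯ σ_{i+1} σ_i`. -/
def dn (i : ℕ) : ℕ → Br
  | 0 => 1
  | t + 1 => s (i + t) * dn i t

/-- `σ_i σ_{i+1} ⋯ σ_{i+t-1}`. -/
def up (i : ℕ) : ℕ → Br
  | 0 => 1
  | t + 1 => up i t * s (i + t)

/-- The standard generator of the pure braid group which links the strands `i` and `i + 1 + t`. -/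
def Ag (i t : ℕ) : Br := dn (i + 1) t * s i ^ 2 * (dn (i + 1) t)⁻¹

/-! ## Group level statements -/

/-- Where the strands are after `psiK m k`. -/
def io (m k a : ℕ) : ℕ := if a < m then a else a + k

/-- T1: properties of `psiK`. -/
def S_PSI : Prop :=
  (∀ m a b y, psiK m (a + b) y = psiK m a (psiK m b y)) ∧
  (∀ m k k' y, y ∈ BN (m + k') → psiK m k y ∈ BN (m + k + k')) ∧
  (∀ m k g y, g ∈ BC m (m + k) → Commute g (psiK m k y)) ∧
  (∀ m k N x g, x ∈ BN (m + k) → g ∈ BC m N → Commute x (psiK m k g)) ∧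
  (∀ m k y a, pm (psiK m k y) (io m k a) = io m k (pm y a)) ∧
  (∀ m k y a, m ≤ a → a < m + k → pm (psiK m k y) a = a) ∧
  (∀ m k k' y, y ∈ BN (m + k') →
      psiK m (k + 1) y = up (m + k) k' * psiK m k y * (up (m + k) k')⁻¹) ∧
  (∀ m k k', ∃ W ∈ BC m (m + k + k'), ∀ y ∈ BN (m + k'), psiK m k y = W * y * W⁻¹) ∧
  (∀ m k k' n y, y ∈ Gam (m + k') n → psiK m k y ∈ Gam (m + k + k') n) ∧
  (∀ m k y, psiK (m + 1) k (psi m y) = psiK m (k + 1) y)

/-- T3: the pure braid group is generated by the standard generators. -/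
def S_PURE : Prop :=
  ∀ N, PN N ≤ Subgroup.closure {x | ∃ i t, i + 1 + t < N ∧ x = Ag i t}

/-- T4: braids with given permutations. -/
def S_REAL : Prop :=
  (∀ N b, b ∈ BN N → ∀ a, N ≤ a → pm b a = a) ∧
  (∀ N b, b ∈ BN N → ∀ a, a < N → pm b a < N) ∧
  (∀ m N b, b ∈ BC m N → ∀ a, a < m → pm b a = a) ∧
  (∀ m N, BC m N ≤ BN N) ∧
  (∀ N N', N ≤ N' → BN N ≤ BN N') ∧
  (∀ m N N', N ≤ N' → BC m N ≤ BC m N') ∧
  (∀ m N x y, x ∈ BN m → y ∈ BC m N → Commute x y) ∧
  (∀ m N (τ : Equiv.Perm ℕ), (∀ a, a < m → τ a = a) → (∀ a, N ≤ a → τ a = a) →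
      ∃ g ∈ BC m N, pm g = τ) ∧
  (∀ N K (f : ℕ → ℕ), K ≤ N → (∀ j, j < K → f j < N) → (∀ i j, i < K → j < K → f i = f j → i = j) →
      ∃ g ∈ BN N, ∀ j, j < K → pm g j = f j) ∧
  (∀ m N c, m ≤ c → c < N → ∃ w ∈ BC m N, pm w (N - 1) = c ∧
      pm (w * s (N - 1) * w⁻¹) = Equiv.swap c N)

/-- T4: the groups `Gam N n`. -/
def S_GAM : Prop :=
  (∀ N n g x, g ∈ BN N → x ∈ Gam N n → g * x * g⁻¹ ∈ Gam N n) ∧
  (∀ N N' n, N ≤ N' → Gam N n ≤ Gam N' n) ∧
  (∀ N n, Gam N (n + 1) ≤ Gam N n) ∧
  (∀ N n, Gam N n ≤ PN N) ∧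
  (∀ N n x p, x ∈ Gam N n → p ∈ PN N → x * p * x⁻¹ * p⁻¹ ∈ Gam N (n + 1))

/-- T4: the place where an element of `Gam K n` is inserted only matters modulo `Gam N (n+1)`. -/
def S_PLACE : Prop :=
  ∀ K N n (γ g g' : Br), K ≤ N → γ ∈ Gam K n → g ∈ BN N → g' ∈ BN N →
    (∀ j, j < K → pm g j = pm g' j) →
    (g * γ * g⁻¹)⁻¹ * (g' * γ * g'⁻¹) ∈ Gam N (n + 1)

/-- T8: `Γ_{n+1}` is generated modulo `Γ_{n+2}` by the places of finitely many elements. -/
def S_LCS : Prop :=
  ∀ n, ∃ C : Finset Br, (∀ c ∈ C, c ∈ Gam (2 * n + 2) n) ∧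
    ∀ N, 2 * n + 2 ≤ N → Gam N n ≤
      Subgroup.closure ({x | ∃ g ∈ BN N, ∃ c ∈ C, x = g * c * g⁻¹} ∪ (Gam N (n + 1) : Set Br))

/-- T10: functions which vanish on singular braids with `n + 1` double points are invariant under
`Γ_{n+1}` of the pure braid group. -/
def S_GAMI : Prop :=
  ∀ (N n : ℕ) (A : Type) [AddCommGroup A] (f : Br → A),
    (∀ S y, Sing N S y → S.length = n + 1 → res f S y = 0) →
    ∀ y ∈ BN N, ∀ x ∈ Gam N n, f (y * x) = f y

/-! ## String links -/

/-- T2: the product of string links. -/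
def S_MUL : Prop :=
  (∀ m d e, Val m d → Val m e → Val m (mul m d e)) ∧
  (∀ m d e, Val m d → Mv m d e → Val m e) ∧
  (∀ m d e, Val m e → Mv m d e → Val m d) ∧
  (∀ m d d' e e', Val m d → Val m d' → Val m e → Val m e' → Mk m d d' → Mk m e e' →
      Mk m (mul m d e) (mul m d' e')) ∧
  (∀ m n d d' e e', Val m d → Val m d' → Val m e → Val m e' → Eqn m n d d' → Eqn m n e e' →
      Eqn m n (mul m d e) (mul m d' e'))

/-- T5: an element of `Γ_{n+1}` may be slid along a strand. The place of `γ` (a pure braid on `K`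
strands) is given by `g`; its strand `j` is moved from the position `a` to the next position
`pm b a` of the same component. -/
def S_SLIDE : Prop :=
  ∀ (m k K n j : ℕ) (b g γ t : Br), 1 ≤ m → Val m ⟨k, b⟩ → K ≤ m + k → g ∈ BN (m + k) →
    γ ∈ Gam K n → j < K → m ≤ pm b (pm g j) → (∀ j', j' < K → pm g j' ≠ pm b (pm g j)) →
    t ∈ BN (m + k) → pm t = Equiv.swap (pm g j) (pm b (pm g j)) →
    Eqn m (n + 1) ⟨k, b * (g * γ * g⁻¹)⟩ ⟨k, b * (t * g * γ * (t * g)⁻¹)⟩

/-- T6a: templates: trivial string links in which every component has `K` closed strands. -/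
def S_TEMP : Prop :=
  ∀ m K : ℕ, 1 ≤ m → ∃ T : Br, Val m ⟨m * K, T⟩ ∧ Mk m ⟨m * K, T⟩ one ∧
    ∀ i < m, ((pm T) ^ (K + 1)) i = i ∧
      ∀ t, 1 ≤ t → t ≤ K → m ≤ ((pm T) ^ t) i ∧ ((pm T) ^ t) i < m + m * K

/-- T6b: the combinatorics of moving `K` tokens along the cycles of a permutation into the slots
`Sl`. -/
def S_TOKEN : Prop :=
  ∀ (π : Equiv.Perm ℕ) (m N K : ℕ) (Sl : ℕ → Prop),
    (∀ a, a < N → π a < N) →
    (∀ a, a < N → ∃ t, 1 ≤ t ∧ (π ^ t) a < m) →
    (∀ a, a < N → ¬ Sl a → ∃ t, 1 ≤ t ∧ (∀ r, 1 ≤ r → r < t + K → m ≤ (π ^ r) a) ∧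
      (∀ r, t ≤ r → r < t + K → Sl ((π ^ r) a))) →
    ∀ p : Fin K → ℕ, Function.Injective p → (∀ j, p j < N) →
      ∃ p' : Fin K → ℕ, Function.Injective p' ∧ (∀ j, p' j < N) ∧ (∀ j, Sl (p' j)) ∧
        Relation.ReflTransGen (fun q q' : Fin K → ℕ => Function.Injective q ∧ (∀ j, q j < N) ∧
          ∃ j, m ≤ π (q j) ∧ (∀ j', q j' ≠ π (q j)) ∧ q' = Function.update q j (π (q j))) p p'

/-- T6c: an element of `Γ_{n+1}` inserted anywhere may be moved to the end of the string link. -/
def S_LP : Prop :=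
  ∀ m K : ℕ, 1 ≤ m → ∃ T : Br, Val m ⟨m * K, T⟩ ∧ Mk m ⟨m * K, T⟩ one ∧
    ∀ (k n : ℕ) (b g γ : Br), Val m ⟨k, b⟩ → K ≤ m + k → g ∈ BN (m + k) → γ ∈ Gam K n →
      ∃ g' ∈ BN (m + m * K), Eqn m (n + 1) ⟨k, b * (g * γ * g⁻¹)⟩
        (mul m ⟨m * K, T * (g' * γ * g'⁻¹)⟩ ⟨k, b⟩)

/-- T7a: all string links are equivalent modulo the pure braid groups. -/
def S_BASE : Prop := ∀ m d, 1 ≤ m → Val m d → Eqn m 0 d one

/-- T7b: string links modulo `Γ_{n+1}` form a group. -/
def S_GRP : Prop := ∀ m n d, 1 ≤ m → Val m d → ∃ e, Val m e ∧ Eqn m n (mul m e d) one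

/-- T9: string links modulo `Γ_{n+1}` are finitely generated. -/
def S_FGM : Prop :=
  ∀ m n : ℕ, 1 ≤ m → ∃ F : Set RD, F.Finite ∧ (∀ f ∈ F, Val m f) ∧
    ∀ d, Val m d → ∃ l : List RD, (∀ x ∈ l, x ∈ F) ∧ Eqn m n d (l.foldr (mul m) one)

/-! ## The filtration by double points -/

/-- The free abelian group on the string links. -/
abbrev AA (m : ℕ) : Type := SLink m →₀ ℤ

/-- The universal invariant. -/
def uni {m : ℕ} (x : SLink m) : AA m := Finsupp.single x 1

/-- The class of a partially closed braid (`0` if it is not a string link). -/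
def cls (m : ℕ) (d : RD) : AA m := evS (m := m) uni d.k d.b

/-- The subgroup generated by the singular string links with `D` double points. -/
def J (m D : ℕ) : AddSubgroup (AA m) :=
  AddSubgroup.closure {x | ∃ k S y, Sing (m + k) S y ∧ S.length = D ∧
    x = res (evS (m := m) uni k) S y}

/-- T11a: the product. -/
def S_BIL : Prop :=
  ∀ m : ℕ, 1 ≤ m → ∃ B : AA m →+ AA m →+ AA m,
    (∀ d e, Val m d → Val m e → B (cls m d) (cls m e) = cls m (mul m d e)) ∧
    ∀ a b x y, x ∈ J m a → y ∈ J m b → B x y ∈ J m (a + b)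

/-- T11b: elementary properties of the filtration. -/
def S_JE : Prop :=
  (∀ m, J m 0 = ⊤) ∧ (∀ m D, J m (D + 1) ≤ J m D) ∧
  (∀ m d e, Mk m d e → cls m d = cls m e) ∧
  (∀ m n d e, Eqn m n d e → cls m d - cls m e ∈ J m (n + 1))

/-- T11c: finite generation. -/
def S_FINM : Prop := ∀ m n : ℕ, 1 ≤ m → AddGroup.FG (AA m ⧸ J m (n + 1))

/-- Close the open strand `m` with the help of `c` (a braid on `m + 1` strands which exchanges an
open strand `i < m` with the strand `m`). -/
def kap (c : Br) (d : RD) : RD := ⟨d.k + 1, d.b * c⟩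

/-- Add the trivial open strand `m`. -/
def iot (m : ℕ) (d : RD) : RD := ⟨d.k, psi m d.b⟩

/-- `hm m c G d`: the string link `d` is inserted into `G` (which has `m + 1` strands). -/
def hm (m : ℕ) (c : Br) (G d : RD) : RD := kap c (mul (m + 1) G (iot m d))

/-- T12a -/
def S_IOT : Prop :=
  ∀ m : ℕ, 1 ≤ m → ∃ φ : AA m →+ AA (m + 1),
    (∀ d, Val m d → Val (m + 1) (iot m d) ∧ φ (cls m d) = cls (m + 1) (iot m d)) ∧
    ∀ D x, x ∈ J m D → φ x ∈ J (m + 1) D

/-- T12b -/
def S_KAP : Prop :=
  ∀ (m i : ℕ) (c : Br), i < m → c ∈ BN (m + 1) → pm c = Equiv.swap i m →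
    ∃ φ : AA (m + 1) →+ AA m,
      (∀ d, Val (m + 1) d → Val m (kap c d) ∧ φ (cls (m + 1) d) = cls m (kap c d)) ∧
      ∀ D x, x ∈ J (m + 1) D → φ x ∈ J m D

/-- T12c -/
def S_KI : Prop :=
  ∀ (m i : ℕ) (c : Br), i < m → c ∈ BN (m + 1) → pm c = Equiv.swap i m →
    ∀ φ : AA m →+ AA m, (∀ d, Val m d → φ (cls m d) = cls m (kap c (iot m d))) →
      ∀ D x, x ∈ J m D → φ x - x ∈ J m (D + 1)

/-- T12d -/
def S_HOP : Prop :=
  ∀ (m i : ℕ) (c : Br) (G : RD), i < m → c ∈ BN (m + 1) → pm c = Equiv.swap i m →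
    Val (m + 1) G → ∃ φ : AA m →+ AA m,
      (∀ d, Val m d → Val m (hm m c G d) ∧ φ (cls m d) = cls m (hm m c G d)) ∧
      ∀ D x, x ∈ J m D → φ x - x ∈ J m (D + 1)

/-! ## Opening a link -/

/-- The elementary change of the place where a link is opened. -/
def ElE (m : ℕ) (d e : RD) : Prop :=
  1 ≤ d.k ∧ e.k = d.k ∧ ∃ i < m, ∃ c ∈ BN (m + 1), pm c = Equiv.swap i m ∧ e.b = c * d.b * c⁻¹

/-- Equivalence generated by isotopies of string links and elementary changes. -/
def El (m : ℕ) : RD → RD → Prop :=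
  Relation.EqvGen (fun d e => Val m d ∧ Val m e ∧ (Mv m d e ∨ ElE m d e))

/-- T13: any two ways to open a closed braid (respecting the order of the components) are related. -/
def S_CUT : Prop :=
  ∀ (m k : ℕ) (b g : Br), 1 ≤ m → Val m ⟨k, b⟩ → g ∈ BN (m + k) →
    (∀ j < m, (pm b).SameCycle ((pm g)⁻¹ j) j) →
    Val m ⟨k, g * b * g⁻¹⟩ ∧ El m ⟨k, b⟩ ⟨k, g * b * g⁻¹⟩

/-! ## Abstract statements -/

/-- T14: orbits of unipotent groups acting on finitely generated abelian groups are separated by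
invariant functions on finite `p`-quotients. -/
def S_SEP : Prop :=
  ∀ (M : Type) [AddCommGroup M], AddGroup.FG M → ∀ (F : ℕ → AddSubgroup M) (r : ℕ), F 0 = ⊤ →
    F r = ⊥ → (∀ k, F (k + 1) ≤ F k) → ∀ H : Set (M ≃+ M),
    AddEquiv.refl M ∈ H → (∀ h ∈ H, h.symm ∈ H) → (∀ h ∈ H, ∀ h' ∈ H, h.trans h' ∈ H) →
    (∀ h ∈ H, ∀ k, ∀ x ∈ F k, h x - x ∈ F (k + 1)) →
    ∀ x x' : M, (∀ h ∈ H, h x ≠ x') →
    ∃ p : ℕ, p.Prime ∧ ∃ (Q : Type) (_ : AddCommGroup Q) (q : M →+ Q) (f : Q → ZMod p),
      Finite Q ∧ (∃ e, Nat.card Q = p ^ e) ∧ (∀ h ∈ H, ∀ y, f (q (h y)) = f (q y)) ∧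
      f (q x) ≠ f (q x')

/-- T15: functions on finite abelian `p`-groups with values in `ZMod p` are polynomials. -/
def S_POLY : Prop :=
  ∀ (p : ℕ), p.Prime → ∀ (Q : Type) [AddCommGroup Q], Finite Q → (∃ e, Nat.card Q = p ^ e) →
    ∀ (f : Q → ZMod p) (n : ℕ), ∃ D : ℕ, ∀ (N : ℕ) (u : Br → Q),
      (∀ S y, Sing N S y → S.length = n + 1 → res u S y = 0) →
      ∀ S y, Sing N S y → S.length = D → res (fun b => f (u b)) S y = 0

/-! ## The theorem -/

/-- T16: the automorphisms of `AA m ⧸ J m (n+1)`. -/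
def S_ETA : Prop :=
  ∀ (m n : ℕ) (d d' : RD), 1 ≤ m → Val m d → Val m d' → ElE m d d' →
    ∃ η : (AA m ⧸ J m (n + 1)) ≃+ (AA m ⧸ J m (n + 1)),
      (∀ D x, x ∈ J m D → ∃ y ∈ J m (D + 1),
        η (QuotientAddGroup.mk x) = QuotientAddGroup.mk x + QuotientAddGroup.mk y) ∧
      η (QuotientAddGroup.mk (cls m d')) = QuotientAddGroup.mk (cls m d) ∧
      (∀ e, Val m e → ∃ e', Val m e' ∧
        η (QuotientAddGroup.mk (cls m e)) = QuotientAddGroup.mk (cls m e') ∧
        ∀ l l' : LData m, IsClosure e l → IsClosure e' l' →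
          Approx n (Quot.mk _ l : Link m) (Quot.mk _ l')) ∧
      (∀ e, Val m e → ∃ e', Val m e' ∧
        η (QuotientAddGroup.mk (cls m e')) = QuotientAddGroup.mk (cls m e) ∧
        ∀ l l' : LData m, IsClosure e l → IsClosure e' l' →
          Approx n (Quot.mk _ l : Link m) (Quot.mk _ l'))

/-- The positive answer to the question. -/
def S_MAIN : Prop :=
  ∀ (m : ℕ) (L L' : Link m),
    (∀ (A : Type) [AddCommGroup A] (v : Link m → A) (n : ℕ), LTypeLE n v → v L = v L') →
    ∀ n : ℕ, Approx n L L'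

end Pool.Agent.K1H35.LK
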