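import Pool.Agent.K1H35.LK.Basic

/-!
# The automorphisms of `AA m ⧸ J m (n+1)`
-/

set_option autoImplicit false

namespace Pool.Agent.K1H35.LK

open Equiv

theorem mul_one' (m : ℕ) (d : RD) : mul m d one = d := by
  obtain ⟨k, b⟩ := d
  simp [mul, one]

theorem one_mul' (m : ℕ) (d : RD) : mul m one d = d := by
  obtain ⟨k, b⟩ := d
  simp [mul, one, psiK]

theorem mul_assoc' (hPsi : S_PSI) (m : ℕ) (d e f : RD) :
    mul m (mul m d e) f = mul m d (mul m e f) := by
  simp only [mul, RD.mk.injEq]
  refine ⟨by ring, ?_⟩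
  rw [hPsi.1, map_mul, mul_assoc]

theorem val_one (m : ℕ) : Val m one := by
  refine ⟨Subgroup.one_mem _, ?_, ?_⟩
  · intro a ha
    exact ⟨a, by simpa [one] using ha, Perm.SameCycle.refl _ _⟩
  · intro i _ j _ h
    simpa [one] using h

theorem hom_ext {m : ℕ} {X : Type} [AddCommGroup X] {φ ψ : AA m →+ X}
    (h : ∀ d, Val m d → φ (cls m d) = ψ (cls m d)) : φ = ψ := by
  refine Finsupp.addHom_ext (fun x z => ?_)
  have h1 : (Finsupp.single x z : AA m) = z • (uni x) := by
    simp [uni]
  rw [h1, map_zsmul, map_zsmul]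
  congr 1
  induction x using Quot.ind with
  | mk d =>
    obtain ⟨d, hd⟩ := d
    have := h d hd
    rw [cls_val hd] at this
    exact this

theorem cls_mem_zero (hJE : S_JE) (m : ℕ) (x : AA m) : x ∈ J m 0 := by
  rw [hJE.1]; trivial

theorem J_mono (hJE : S_JE) (m : ℕ) {D E : ℕ} (h : D ≤ E) : J m E ≤ J m D := by
  induction h with
  | refl => exact le_rfl
  | step _ ih => exact (hJE.2.1 m _).trans ih

/-- all string links agree modulo singular string links -/
theorem cls_sub_J1 (hJE : S_JE) (hBase : S_BASE) {m : ℕ} (hm : 1 ≤ m) {d e : RD} (hd : Val m d)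
    (he : Val m e) : cls m d - cls m e ∈ J m 1 := by
  have h1 := hJE.2.2.2 m 0 _ _ (hBase m d hm hd)
  have h2 := hJE.2.2.2 m 0 _ _ (hBase m e hm he)
  have := sub_mem h1 h2
  simpa using this

/-- two-sided inverses -/
theorem two_sided (hPsi : S_PSI) (hM : S_MUL) (hGrp : S_GRP) {m : ℕ} (n : ℕ) (hm : 1 ≤ m) {d : RD}
    (hd : Val m d) : ∃ e, Val m e ∧ Eqn m n (mul m e d) one ∧ Eqn m n (mul m d e) one := by
  obtain ⟨e, he, h1⟩ := hGrp m n d hm hd
  obtain ⟨f, hf, h2⟩ := hGrp m n e hm he
  refine ⟨e, he, h1, ?_⟩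
  have vm := hM.1
  have cg := hM.2.2.2.2
  have v1 := val_one m
  have s1 : Eqn m n (mul m (mul m f e) (mul m d e)) (mul m one (mul m d e)) :=
    cg m n _ _ _ _ (vm _ _ _ hf he) v1 (vm _ _ _ hd he) (vm _ _ _ hd he) h2
      (Relation.EqvGen.refl _)
  have s2 : mul m (mul m f e) (mul m d e) = mul m f (mul m (mul m e d) e) := by
    rw [mul_assoc' hPsi, mul_assoc' hPsi m e d e]
  have s3 : Eqn m n (mul m (mul m e d) e) (mul m one e) :=
    cg m n _ _ _ _ (vm _ _ _ he hd) v1 he he h1 (Relation.EqvGen.refl _)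
  have s4 : Eqn m n (mul m f (mul m (mul m e d) e)) (mul m f (mul m one e)) :=
    cg m n _ _ _ _ hf hf (vm _ _ _ (vm _ _ _ he hd) he) (vm _ _ _ v1 he)
      (Relation.EqvGen.refl _) s3
  rw [s2] at s1
  rw [one_mul'] at s1 s4
  exact ((s1.symm.trans _ _ _ s4).trans _ _ _ h2)

/-- a homomorphism which raises the filtration degree induces a unipotent automorphism -/
theorem unip (hJE : S_JE) {m n : ℕ} (φ : AA m →+ AA m)
    (h : ∀ D x, x ∈ J m D → φ x - x ∈ J m (D + 1)) :
    ∃ η : (AA m ⧸ J m (n + 1)) ≃+ (AA m ⧸ J m (n + 1)),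
      ∀ x : AA m, η (QuotientAddGroup.mk x) = QuotientAddGroup.mk (φ x) := by
  have hφ : ∀ D x, x ∈ J m D → φ x ∈ J m D := by
    intro D x hx
    have h1 := hJE.2.1 m D (h D x hx)
    have := add_mem h1 hx
    simpa using this
  let q : (AA m ⧸ J m (n + 1)) →+ (AA m ⧸ J m (n + 1)) :=
    QuotientAddGroup.map _ _ φ (fun x hx => hφ _ x hx)
  have hq : ∀ x : AA m, q (QuotientAddGroup.mk x) = QuotientAddGroup.mk (φ x) := fun x => rfl
  let δ : AddMonoid.End (AA m ⧸ J m (n + 1)) := q - AddMonoidHom.id _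
  have hδ : ∀ x : AA m, δ (QuotientAddGroup.mk x) = QuotientAddGroup.mk (φ x - x) := by
    intro x
    show q _ - _ = _
    rw [hq]; rfl
  have hpow : ∀ D, ∀ x : AA m, ∃ y ∈ J m D, (δ ^ D) (QuotientAddGroup.mk x) = QuotientAddGroup.mk y := by
    intro D
    induction D with
    | zero => intro x; exact ⟨x, cls_mem_zero hJE m x, rfl⟩
    | succ D ih =>
      intro x
      obtain ⟨y, hy, hxy⟩ := ih x
      refine ⟨φ y - y, h D y hy, ?_⟩
      rw [pow_succ']
      show δ ((δ ^ D) _) = _
      rw [hxy, hδ]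
  have hnil : δ ^ (n + 1) = 0 := by
    ext x
    induction x using QuotientAddGroup.induction_on with
    | H x =>
      obtain ⟨y, hy, hxy⟩ := hpow (n + 1) x
      rw [hxy]
      exact (QuotientAddGroup.eq_zero_iff y).mpr hy
  have hu : IsUnit (1 + δ) :=
    IsNilpotent.isUnit_one_add (R := AddMonoid.End (AA m ⧸ J m (n + 1))) ⟨n + 1, hnil⟩
  have hqe : (1 + δ : AddMonoid.End (AA m ⧸ J m (n + 1))) = q := by
    refine AddMonoidHom.ext (fun x => ?_)
    show x + (q x - x) = q x
    abel
  rw [hqe] at hu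
  obtain ⟨u, hu⟩ := hu
  have h1 : ∀ x, (u⁻¹ : (AddMonoid.End (AA m ⧸ J m (n + 1)))ˣ).1 (q x) = x := by
    intro x
    have := congrArg (fun f : AddMonoid.End (AA m ⧸ J m (n + 1)) => f x) (u.inv_mul)
    rw [← hu]
    exact this
  have h2 : ∀ x, q ((u⁻¹ : (AddMonoid.End (AA m ⧸ J m (n + 1)))ˣ).1 x) = x := by
    intro x
    have := congrArg (fun f : AddMonoid.End (AA m ⧸ J m (n + 1)) => f x) (u.mul_inv)
    rw [← hu]
    exact this
  refine ⟨AddEquiv.ofBijective q ⟨fun a b hab => by rw [← h1 a, hab, h1], fun y => ⟨_, h2 y⟩⟩, ?_⟩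
  intro x
  exact hq x

theorem t_ETA (hPsi : S_PSI) (hR : S_REAL) (hM : S_MUL) (hBase : S_BASE) (hGrp : S_GRP)
    (hBil : S_BIL) (hJE : S_JE) (hHop : S_HOP) : S_ETA := by
  intro m n d d' hm1 hd hd' hel
  obtain ⟨hk, hkk, i, hi, c, hc, hpc, hb⟩ := hel
  obtain ⟨k, b⟩ := d
  obtain ⟨k', b'⟩ := d'
  simp only at hk hkk hb
  subst hkk
  subst hb
  have hfix := hR.1
  -- the string link with one more open strand
  set G : RD := ⟨k' - 1, b * c⁻¹⟩ with hG
  have hkm : m + 1 + (k' - 1) = m + k' := by omega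
  have hcN : c ∈ BN (m + k') := hR.2.2.2.2.1 (m + 1) (m + k') (by omega) hc
  have hpci : (pm c)⁻¹ = swap i m := by rw [hpc, swap_inv]
  have hsc : (pm b).SameCycle i m := by
    obtain ⟨j, hj, hs⟩ := hd.2.1 m (by show m < m + k'; omega)
    have hs' : (pm b).SameCycle j m := hs
    by_cases hji : j = i
    · subst hji; exact hs'
    · exfalso
      have h1 : (pm (c * b * c⁻¹)).SameCycle j i := by
        rw [map_mul, map_mul, map_inv, Perm.sameCycle_conj, hpci, swap_apply_left,
          swap_apply_of_ne_of_ne hji (by omega)]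
        exact hs'
      exact hji (hd'.2.2 j hj i hi h1)
  have hGv : Val (m + 1) G := by
    refine ⟨?_, ?_⟩
    · show b * c⁻¹ ∈ BN (m + 1 + (k' - 1))
      rw [hkm]
      exact mul_mem hd.1 (inv_mem hcN)
    · show Ok (m + 1) (m + 1 + (k' - 1)) (pm (b * c⁻¹))
      rw [hkm, map_mul, map_inv, hpci]
      exact ok_split (hfix _ _ hd.1) hi (by omega) hd.2 hsc
  obtain ⟨B, hB1, hB2⟩ := hBil m hm1
  obtain ⟨φ, hφ1, hφ2⟩ := hHop m i c G hi hc hpc hGv
  obtain ⟨lam, hlam, hl1, hl2⟩ := two_sided hPsi hM hGrp n hm1 hd'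
  have vm := hM.1
  have v1 := val_one m
  have hjl1 := hJE.2.2.2 m n _ _ hl1
  have hjl2 := hJE.2.2.2 m n _ _ hl2
  have hBone : B (cls m one) = AddMonoidHom.id _ := by
    apply hom_ext
    intro e he
    rw [hB1 _ _ v1 he, one_mul']
    rfl
  have hLr : ∀ w, Val m w → ∀ D x, x ∈ J m D → B (cls m w) x - x ∈ J m (D + 1) := by
    intro w hw D x hx
    have h1 : B (cls m w) x - x = B (cls m w - cls m one) x := by
      rw [map_sub, AddMonoidHom.sub_apply, hBone]; rfl
    rw [h1, add_comm D 1]
    exact hB2 1 D _ _ (cls_sub_J1 hJE hBase hm1 hw v1) hx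
  have hstep : ∀ D x, x ∈ J m D → (φ.comp (B (cls m lam))) x - x ∈ J m (D + 1) := by
    intro D x hx
    have h1 := hLr lam hlam D x hx
    have h2 : B (cls m lam) x ∈ J m D := by
      have := add_mem (hJE.2.1 m D h1) hx
      simpa using this
    have h3 := hφ2 D _ h2
    have := add_mem h3 h1
    simpa using this
  obtain ⟨η, hη⟩ := unip (n := n) hJE (φ.comp (B (cls m lam))) hstep
  have hφcls : ∀ e, Val m e → Val m (hm m c G (mul m lam e)) ∧
      (φ.comp (B (cls m lam))) (cls m e) = cls m (hm m c G (mul m lam e)) := by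
    intro e he
    have h1 := hφ1 (mul m lam e) (vm _ _ _ hlam he)
    refine ⟨h1.1, ?_⟩
    rw [AddMonoidHom.comp_apply, hB1 _ _ hlam he, h1.2]
  have hmk : ∀ {x y : AA m}, x - y ∈ J m (n + 1) →
      (QuotientAddGroup.mk x : AA m ⧸ J m (n + 1)) = QuotientAddGroup.mk y := by
    intro x y h
    have := (QuotientAddGroup.eq_zero_iff (N := J m (n + 1)) (x - y)).mpr h
    rw [QuotientAddGroup.mk_sub] at this
    exact sub_eq_zero.mp this
  -- closures
  have hclos : ∀ e, Val m e → ∀ l l' : LData m, IsClosure e l →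
      IsClosure (hm m c G (mul m lam e)) l' → Approx n (Quot.mk _ l : Link m) (Quot.mk _ l') := by
    intro e he l l' hl hl'
    set e' := hm m c G (mul m lam e) with he'
    have hve' := (hφcls e he).1
    set f := mul m ⟨k', c * b * c⁻¹⟩ (mul m lam e) with hf
    have hvf : Val m f := vm _ _ _ hd' (vm _ _ _ hlam he)
    have hfk : f.k = e'.k := by
      simp only [hf, he', hm, kap, iot, mul, hG]
      omega
    have hfb : f.b = c * e'.b * c⁻¹ := by
      simp only [hf, he', hm, kap, iot, mul, hG]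
      have h1 := hPsi.2.2.2.2.2.2.2.2.2 m (k' - 1) (lam.b * (psiK m lam.k) e.b)
      rw [h1, Nat.sub_add_cancel hk]
      group
    obtain ⟨l'', hl''⟩ := exists_closure hm1 hvf
    have hLM : LMove m l' l'' := by
      refine LMove.conj l' l'' c ?_ ?_ ?_ ?_
      · rw [hl'.1]
        refine hR.2.2.2.2.1 (m + 1) _ ?_ hc
        have : 1 ≤ e'.k := by rw [← hfk]; simp only [hf, mul]; omega
        omega
      · rw [hl''.1, hl'.1, hfk]
      · rw [hl''.2.1, hl'.2.1, hfb]
      · intro a ha
        rw [hl'.1] at ha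
        obtain ⟨j, hj, hs⟩ := hve'.2.1 a ha
        rw [closure_col hl' ha hj hs]
        have hca : (pm c) a < m + f.k := by
          rw [hpc, swap_apply_def, hfk]
          have : 1 ≤ e'.k := by rw [← hfk]; simp only [hf, mul]; omega
          split_ifs <;> omega
        have hs2 : (pm f.b).SameCycle (pm c j) (pm c a) := by
          rw [hfb, map_mul, map_mul, map_inv, Perm.sameCycle_conj]
          simpa using hs
        by_cases hji : j = i
        · subst hji
          rw [hpc, swap_apply_left] at hs2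
          rw [hpc] at hca ⊢
          -- the colour of the strand `m` in `f`
          obtain ⟨j0, hj0, hs0⟩ := hvf.2.1 m (by
            show m < m + f.k
            have : 1 ≤ f.k := by simp only [hf, mul]; omega
            omega)
          have hj0i : j0 = j := by
            by_contra hne
            have h1 : (pm e'.b).SameCycle j0 j := by
              have h2 := hs0
              rw [hfb, map_mul, map_mul, map_inv, Perm.sameCycle_conj, hpci, swap_apply_right,
                swap_apply_of_ne_of_ne hne (by omega)] at h2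
              exact h2
            exact hne (hve'.2.2 j0 hj0 j hj h1)
          subst hj0i
          exact closure_col hl'' hca hj (hs0.trans hs2)
        · rw [hpc, swap_apply_of_ne_of_ne hji (by omega)] at hs2
          rw [hpc] at hca ⊢
          exact closure_col hl'' hca hj hs2
    have hq : (Quot.mk _ l' : Link m) = Quot.mk _ l'' := Quot.sound hLM
    rw [hq]
    refine closure_approx he hvf ?_ hl hl''
    have h1 : cls m e - cls m f = B (cls m one - cls m (mul m ⟨k', c * b * c⁻¹⟩ lam)) (cls m e) := by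
      rw [map_sub, AddMonoidHom.sub_apply, hB1 _ _ v1 he, one_mul',
        hB1 _ _ (vm _ _ _ hd' hlam) he, mul_assoc' hPsi]
    rw [h1]
    have h2 := hB2 (n + 1) 0 _ (cls m e) (neg_mem hjl2) (cls_mem_zero hJE m _)
    simpa using h2
  refine ⟨η, ?_, ?_, ?_, ?_⟩
  · intro D x hx
    refine ⟨_, hstep D x hx, ?_⟩
    rw [hη, ← QuotientAddGroup.mk_add]
    congr 1
    abel
  · rw [hη, (hφcls _ hd').2]
    have h1 : hm m c G one = ⟨k', b⟩ := by
      simp only [hm, kap, iot, mul, hG, one, RD.mk.injEq, map_one, mul_one]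
      exact ⟨by omega, by group⟩
    have h2 : (φ.comp (B (cls m lam))) (cls m ⟨k', c * b * c⁻¹⟩) - φ (cls m one) ∈ J m (n + 1) := by
      rw [AddMonoidHom.comp_apply, hB1 _ _ hlam hd', ← map_sub]
      have h3 := hφ2 (n + 1) _ hjl1
      have := add_mem (hJE.2.1 m _ h3) hjl1
      simpa using this
    have h3 := hmk h2
    rw [(hφ1 one v1).2, h1, (hφcls _ hd').2] at h3
    exact h3
  · intro e he
    refine ⟨_, (hφcls e he).1, ?_, hclos e he⟩
    rw [hη, (hφcls e he).2]
  · intro e he
    -- successive approximation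
    have key : ∀ D, D ≤ n + 1 → ∃ u, Val m u ∧ cls m (hm m c G (mul m lam u)) - cls m e ∈ J m D := by
      intro D
      induction D with
      | zero => intro _; exact ⟨one, v1, cls_mem_zero hJE m _⟩
      | succ D ih =>
        intro hD
        obtain ⟨u, hu, hue⟩ := ih (by omega)
        set u2 := hm m c G (mul m lam u) with hu2
        have hvu2 : Val m u2 := (hφcls u hu).1
        obtain ⟨w, hw, hw1, hw2⟩ := two_sided hPsi hM hGrp n hm1 hvu2
        have hjw1 := hJE.2.2.2 m n _ _ hw1
        have hjw2 := hJE.2.2.2 m n _ _ hw2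
        set t := mul m w e with ht
        have hvt : Val m t := vm _ _ _ hw he
        have ht1 : cls m t - cls m one ∈ J m D := by
          have h1 : cls m t - cls m (mul m w u2) = B (cls m w) (cls m e - cls m u2) := by
            rw [map_sub, hB1 _ _ hw he, hB1 _ _ hw hvu2]
          have h2 : cls m e - cls m u2 ∈ J m D := by
            have := neg_mem hue
            simpa using this
          have h3 := hB2 0 D _ _ (cls_mem_zero hJE m (cls m w)) h2
          rw [← h1, zero_add] at h3
          have h4 := J_mono hJE m (show D ≤ n + 1 by omega) hjw1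
          have := add_mem h3 h4
          simpa using this
        refine ⟨mul m u t, vm _ _ _ hu hvt, ?_⟩
        have e1 : cls m (hm m c G (mul m lam (mul m u t))) =
            (φ.comp (B (cls m lam))) (cls m (mul m u t)) := (hφcls _ (vm _ _ _ hu hvt)).2.symm
        have e2 : cls m (mul m u t) = cls m u + B (cls m u) (cls m t - cls m one) := by
          rw [map_sub, hB1 _ _ hu hvt, hB1 _ _ hu v1, mul_one']
          abel
        have e3 : (φ.comp (B (cls m lam))) (cls m u) = cls m u2 := (hφcls u hu).2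
        have hx1 : B (cls m u) (cls m t - cls m one) ∈ J m D := by
          have := hB2 0 D _ _ (cls_mem_zero hJE m (cls m u)) ht1
          simpa using this
        have e4 := hstep D _ hx1
        have e5 : cls m (mul m u2 t) = cls m u2 + B (cls m u2) (cls m t - cls m one) := by
          rw [map_sub, hB1 _ _ hvu2 hvt, hB1 _ _ hvu2 v1, mul_one']
          abel
        have e6 : cls m (mul m u2 t) - cls m e ∈ J m (D + 1) := by
          have h1 : cls m (mul m u2 t) - cls m e = B (cls m (mul m u2 w) - cls m one) (cls m e) := by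
            rw [map_sub, AddMonoidHom.sub_apply, hB1 _ _ v1 he, one_mul',
              hB1 _ _ (vm _ _ _ hvu2 hw) he, mul_assoc' hPsi]
          rw [h1]
          have h2 := hB2 (n + 1) 0 _ (cls m e) hjw2 (cls_mem_zero hJE m _)
          exact J_mono hJE m (by omega) (by simpa using h2)
        have e7 : B (cls m u - cls m u2) (cls m t - cls m one) ∈ J m (D + 1) := by
          have := hB2 1 D _ _ (cls_sub_J1 hJE hBase hm1 hu hvu2) ht1
          rwa [add_comm 1 D] at this
        have e8 : cls m (hm m c G (mul m lam (mul m u t))) - cls m e =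
            ((φ.comp (B (cls m lam))) (B (cls m u) (cls m t - cls m one)) -
              B (cls m u) (cls m t - cls m one)) +
            B (cls m u - cls m u2) (cls m t - cls m one) +
            (cls m (mul m u2 t) - cls m e) := by
          rw [e1, e2, map_add, e3, e5, map_sub B, AddMonoidHom.sub_apply]
          abel
        rw [e8]
        exact add_mem (add_mem e4 e7) e6
    obtain ⟨u, hu, hue⟩ := key (n + 1) le_rfl
    refine ⟨u, hu, ?_, ?_⟩
    · rw [hη, (hφcls u hu).2]
      exact hmk hue
    · intro l l' hl hl'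
      have hv2 := (hφcls u hu).1
      obtain ⟨l2, hl2'⟩ := exists_closure hm1 hv2
      have a1 := hclos u hu l' l2 hl' hl2'
      have a2 := closure_approx hv2 he hue hl2' hl
      exact (a1.trans _ _ _ a2).symm _ _

end Pool.Agent.K1H35.LK
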