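import Pool.Agent.K1H35.LK.Conv

/-!
# The relation `≈_n` for an arbitrary notion of isotopy of string links

The relation `Mv` (conjugation with closed braids, stabilization) generates a relation between
partially closed braids which is contained in isotopy of string links. To be independent of the
question whether it is equal to isotopy, everything is formulated for an arbitrary relation `R`
between `Mv` and having isotopic closures; isotopy of string links (relative to the boundary) is such a
relation.
-/

set_option autoImplicit false

namespace Pool.Agent.K1H35.LK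

/-- String links with `m` strands: partially closed braids modulo the relation `R`. -/
def SLinkR {m : ℕ} (R : SData m → SData m → Prop) : Type := Quot R

open Classical in
/-- The value of the string link invariant `v` at the partially closed braid `b` with `k` closed
strands (and `0` if this is not a string link). -/
noncomputable def evR {m : ℕ} {R : SData m → SData m → Prop} {A : Type} [AddCommGroup A]
    (v : SLinkR R → A) (k : ℕ) (b : Br) : A :=
  if h : Val m ⟨k, b⟩ then v (Quot.mk _ ⟨⟨k, b⟩, h⟩) else 0

/-- `v` is a string link invariant of type `n`: it vanishes on all singular string links with `n + 1`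
double points. -/
def STypeR {m : ℕ} {R : SData m → SData m → Prop} {A : Type} [AddCommGroup A] (n : ℕ)
    (v : SLinkR R → A) : Prop :=
  ∀ (k : ℕ) (S : List (ℕ × Br)) (y : Br), Sing (m + k) S y → S.length = n + 1 →
    res (evR v k) S y = 0

/-- The string links `d` and `e` are not separated by type `n` invariants of string links (with
values in any abelian group). -/
def NotSepR {m : ℕ} (R : SData m → SData m → Prop) (n : ℕ) (d e : SData m) : Prop :=
  ∀ (A : Type) [AddCommGroup A] (v : SLinkR R → A), STypeR n v → v (Quot.mk _ d) = v (Quot.mk _ e)

/-- The relation `L ≈_n L'` of the problem: the equivalence relation on isotopy classes of links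
generated by the pairs of closures of string links which are not separated by type `n` invariants of
string links. -/
def ApproxR {m : ℕ} (R : SData m → SData m → Prop) (n : ℕ) : Link m → Link m → Prop :=
  Relation.EqvGen (fun L L' => ∃ (d d' : SData m) (l l' : LData m), NotSepR R n d d' ∧
    IsClosure d.1 l ∧ IsClosure d'.1 l' ∧ L = Quot.mk _ l ∧ L' = Quot.mk _ l')

/-- `R` is a notion of isotopy of string links: it holds for conjugation with closed braids and for
stabilization, and string links related by `R` have isotopic closures. -/
def Isotopy {m : ℕ} (R : SData m → SData m → Prop) : Prop :=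
  (∀ d e : SData m, Mv m d.1 e.1 → R d e) ∧
  (∀ d e : SData m, R d e → ∀ l l' : LData m, IsClosure d.1 l → IsClosure e.1 l' →
    (Quot.mk _ l : Link m) = Quot.mk _ l')

theorem notSepR_of {m n : ℕ} {R : SData m → SData m → Prop} (hR : ∀ d e : SData m, Mv m d.1 e.1 → R d e)
    {d e : SData m} (h : NotSep n (Quot.mk _ d : SLink m) (Quot.mk _ e)) : NotSepR R n d e := by
  intro A _ v hv
  let w : SLink m → A := Quot.lift (fun d : SData m => v (Quot.mk _ d))
    (fun d e hde => congrArg v (Quot.sound (hR d e hde)))
  have hw : STypeLE n w := by
    intro k S y hS hl
    have : evS w k = evR v k := by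
      funext b
      unfold evS evR
      split_ifs <;> rfl
    rw [this]
    exact hv k S y hS hl
  exact h A w hw

theorem approxR_of {m n : ℕ} {R : SData m → SData m → Prop}
    (hR : ∀ d e : SData m, Mv m d.1 e.1 → R d e) {L L' : Link m} (h : Approx n L L') :
    ApproxR R n L L' := by
  induction h with
  | refl => exact Relation.EqvGen.refl _
  | symm _ _ _ ih => exact ih.symm
  | trans _ _ _ _ _ ih1 ih2 => exact ih1.trans _ _ _ ih2
  | rel L L' h =>
    obtain ⟨d, d', l, l', hns, h1, h2, h3, h4⟩ := h
    exact Relation.EqvGen.rel _ _ ⟨d, d', l, l', notSepR_of hR hns, h1, h2, h3, h4⟩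

theorem approxR_sep {m n : ℕ} {R : SData m → SData m → Prop} (hR : Isotopy R) {L L' : Link m}
    (h : ApproxR R n L L') {A : Type} [AddCommGroup A] (v : Link m → A) (hv : LTypeLE n v) :
    v L = v L' := by
  classical
  have hm : 1 ≤ m := by
    induction L using Quot.ind with
    | mk l =>
      have := (l.col 0).2
      omega
  induction h with
  | refl => rfl
  | symm _ _ _ ih => exact ih.symm
  | trans _ _ _ _ _ ih1 ih2 => exact ih1.trans ih2
  | rel L L' h =>
    obtain ⟨d, d', l, l', hns, hl, hl', rfl, rfl⟩ := h
    choose cl hcl using (fun (d : SData m) => exists_closure hm d.2)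
    let w : SLinkR R → A := Quot.lift (fun d : SData m => v (Quot.mk _ (cl d)))
      (fun d e hde => congrArg v (hR.2 d e hde _ _ (hcl d) (hcl e)))
    have hw : ∀ (d : SData m) (l : LData m), IsClosure d.1 l → w (Quot.mk _ d) = v (Quot.mk _ l) := by
      intro d l hl
      exact congrArg v (closure_link_unique d.2 (hcl d) hl)
    have hwt : STypeR n w := by
      intro k S y hS hlen
      by_cases hval : Val m ⟨k, pos S y⟩
      · obtain ⟨l0, hl0⟩ := exists_closure hm hval
        have hN0 : l0.N = m + k := hl0.1
        have key : res (evR w k) S y = res (evL v (m + k) l0.col) S y := by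
          refine res_congr_pm hS (fun b hb hbp => ?_)
          have h1 : Val m ⟨k, b⟩ := ⟨hb, by
            show Ok m (m + k) (pm b)
            rw [hbp]; exact hval.2⟩
          have h2 : LVal m (m + k) l0.col b := by
            refine ⟨hb, ?_, ?_⟩
            · rw [← hN0]; exact l0.surj
            · rw [hbp, ← hN0]
              have := l0.cyc
              rw [hl0.2.1] at this
              exact this
          have e1 : evR w k b = w (Quot.mk _ ⟨⟨k, b⟩, h1⟩) := by
            unfold evR
            rw [dif_pos h1]
          have e2 : evL v (m + k) l0.col b = v (Quot.mk _ ⟨m + k, b, l0.col, h2.1, h2.2.1, h2.2.2⟩) := by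
            unfold evL
            rw [dif_pos h2]
          rw [e1, e2]
          exact hw ⟨⟨k, b⟩, h1⟩ _ ⟨rfl, rfl, hl0.2.2⟩
        rw [key]
        exact hv (m + k) l0.col S y hS hlen
      · have key : res (evR w k) S y = res (fun _ => (0 : A)) S y := by
          refine res_congr_pm hS (fun b hb hbp => ?_)
          unfold evR
          refine dif_neg (fun h1 => hval ⟨pos_mem hS, ?_⟩)
          show Ok m (m + k) (pm (pos S y))
          rw [← hbp]; exact h1.2
        rw [key]
        have hz : ∀ (S : List (ℕ × Br)) (y : Br), res (fun _ : Br => (0 : A)) S y = 0 := by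
          intro S
          induction S with
          | nil => intro y; rfl
          | cons a S ih => intro y; obtain ⟨i, z⟩ := a; simp only [res, ih, sub_zero]
        exact hz S y
    have := hns A w hwt
    rw [hw d l hl, hw d' l' hl'] at this
    exact this

/-- The moves `Mv` are a notion of isotopy. -/
theorem isotopy_mv (hR : S_REAL) (m : ℕ) : Isotopy (fun d e : SData m => Mv m d.1 e.1) :=
  ⟨fun _ _ h => h, fun d e h _ _ hl hl' => link_of_mv hR d.2 e.2 h hl hl'⟩

end Pool.Agent.K1H35.LK
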