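import Pool.Agent.K1H35.LK.Main
import Pool.Agent.K1H35.LK.Eta
import Pool.Agent.K1H35.LK.Iso
import Pool.Agent.K1H36.LK.Psi
import Pool.Agent.K1H36.LK.Pure
import Pool.Agent.K1H93.LK.Real
import Pool.Agent.K1H73.LK.Mul
import Pool.Agent.K1H87.LK.Slide
import Pool.Agent.K1H97.LK.Temp
import Pool.Agent.K1H21.LK.LP
import Pool.Agent.K1H87.LK.Group
import Pool.Agent.K1H3.LK.Lcs
import Pool.Agent.K1H87.LK.FinGen
import Pool.Agent.K1H20.LK.Gami
import Pool.Agent.K1H3.LK.Fil
import Pool.Agent.K1H97.LK.Fin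
import Pool.Agent.K1H47.LK.Cut
import Pool.Agent.K1H3.LK.Sep
import Pool.Agent.K1H54.LK.Poly
import Pool.Agent.K1H43.LK.Op

/-!
# Assembly
-/

set_option autoImplicit false

namespace Pool.Agent.K1H35.LK

theorem psi' : S_PSI := K1H36.LK.t_PSI
theorem pure' : S_PURE := K1H36.LK.t_PURE
theorem real' : S_REAL := K1H93.LK.t_REAL
theorem gam' : S_GAM := K1H93.LK.t_GAM
theorem place' : S_PLACE := K1H93.LK.t_PLACE
theorem mul' : S_MUL := K1H73.LK.t_MUL psi' real' gam'
theorem slide' : S_SLIDE := K1H87.LK.t_SLIDE real' gam' place' mul'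
theorem token' : S_TOKEN := K1H97.LK.t_TOKEN
theorem temp' : S_TEMP := K1H97.LK.t_TEMP real' mul'
theorem lp' : S_LP := K1H21.LK.t_LP psi' real' gam' place' mul' slide' temp' token'
theorem base' : S_BASE := K1H87.LK.t_BASE real' mul'
theorem grp' : S_GRP := K1H87.LK.t_GRP real' gam' mul' lp' base'
theorem lcs' : S_LCS := K1H3.LK.t_LCS real' gam' place' pure'
theorem fgm' : S_FGM := K1H87.LK.t_FGM real' gam' place' psi' mul' lp' base' lcs'
theorem gami' : S_GAMI := K1H20.LK.t_GAMI pure'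
theorem je' : S_JE := K1H3.LK.t_JE gami'
theorem bil' : S_BIL := K1H3.LK.t_BIL psi' mul'
theorem finm' : S_FINM := K1H97.LK.t_FINM mul' fgm' bil' je' base'
theorem cut' : S_CUT := K1H47.LK.t_CUT real' mul' pure'
theorem sep' : S_SEP := K1H3.LK.t_SEP
theorem poly' : S_POLY := K1H54.LK.t_POLY

theorem iot' : S_IOT := K1H43.LK.t_IOT
theorem kap' : S_KAP := K1H43.LK.t_KAP
theorem ki' : S_KI := K1H43.LK.t_KI mul' gami'
theorem hop' : S_HOP := K1H43.LK.t_HOP mul' iot' kap' ki' bil' je' base'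
theorem eta' : S_ETA := t_ETA psi' real' mul' base' grp' bil' je' hop'

/-- The theorem (with values in prime fields). -/
theorem main' (m : ℕ) (L L' : Link m)
    (hsep : ∀ p : ℕ, p.Prime → ∀ (n : ℕ) (v : Link m → ZMod p), LTypeLE n v → v L = v L') (n : ℕ) :
    Approx n L L' :=
  t_MAINp real' cut' eta' je' finm' sep' poly' m L L' hsep n

end Pool.Agent.K1H35.LK
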