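import Pool.Agent.K1H35.LK.Perm

/-!
# Invariants as homomorphisms on the free abelian group; closures
-/

set_option autoImplicit false

namespace Pool.Agent.K1H35.LK

open Equiv

theorem res_map {A B : Type} [AddCommGroup A] [AddCommGroup B] (φ : A →+ B) (f : Br → A)
    (S : List (ℕ × Br)) (y : Br) : φ (res f S y) = res (fun b => φ (f b)) S y := by
  induction S generalizing y with
  | nil => rfl
  | cons p S ih =>
    obtain ⟨i, z⟩ := p
    simp only [res, map_sub, ih]

theorem res_congr {A : Type} [AddCommGroup A] {N : ℕ} {f g : Br → A}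
    (h : ∀ b ∈ BN N, f b = g b) {S : List (ℕ × Br)} {y : Br} (hS : Sing N S y) :
    res f S y = res g S y := by
  induction S generalizing y with
  | nil => exact h y hS.1
  | cons p S ih =>
    obtain ⟨i, z⟩ := p
    obtain ⟨hy, hS⟩ := hS
    have hp := hS (i, z) (by simp)
    have hs : s i ∈ BN N := Subgroup.subset_closure ⟨i, hp.1, rfl⟩
    have h1 : Sing N S (y * s i * z) :=
      ⟨mul_mem (mul_mem hy hs) hp.2, fun q hq => hS q (by simp [hq])⟩
    have h2 : Sing N S (y * (s i)⁻¹ * z) :=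
      ⟨mul_mem (mul_mem hy (inv_mem hs)) hp.2, fun q hq => hS q (by simp [hq])⟩
    simp only [res, ih h1, ih h2]

/-- the extension of an invariant to the free abelian group -/
noncomputable def hat {m : ℕ} {A : Type} [AddCommGroup A] (v : SLink m → A) : AA m →+ A :=
  Finsupp.liftAddHom (fun x => zmultiplesHom A (v x))

@[simp] theorem hat_uni {m : ℕ} {A : Type} [AddCommGroup A] (v : SLink m → A) (x : SLink m) :
    hat v (uni x) = v x := by
  simp [hat, uni]

/-- the string link of a diagram -/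
def mkS {m : ℕ} (d : RD) (h : Val m d) : SLink m := Quot.mk _ ⟨d, h⟩

theorem evS_pos {m : ℕ} {A : Type} [AddCommGroup A] (v : SLink m → A) {k : ℕ} {b : Br}
    (h : Val m ⟨k, b⟩) : evS v k b = v (mkS ⟨k, b⟩ h) := dif_pos h

theorem evS_neg {m : ℕ} {A : Type} [AddCommGroup A] (v : SLink m → A) {k : ℕ} {b : Br}
    (h : ¬ Val m ⟨k, b⟩) : evS v k b = 0 := dif_neg h

theorem mkS_mv {m : ℕ} {d e : RD} (hd : Val m d) (he : Val m e) (h : Mv m d e) :
    mkS d hd = mkS e he := Quot.sound h

theorem hat_evS {m : ℕ} {A : Type} [AddCommGroup A] (v : SLink m → A) (k : ℕ) (b : Br) :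
    hat v (evS uni k b) = evS v k b := by
  by_cases h : Val m ⟨k, b⟩
  · rw [evS_pos _ h, evS_pos _ h, hat_uni]
  · rw [evS_neg _ h, evS_neg _ h, map_zero]

theorem hat_res {m : ℕ} {A : Type} [AddCommGroup A] (v : SLink m → A) (k : ℕ)
    (S : List (ℕ × Br)) (y : Br) : hat v (res (evS uni k) S y) = res (evS v k) S y := by
  rw [res_map]
  congr 1
  funext b
  exact hat_evS v k b

theorem hat_J {m n : ℕ} {A : Type} [AddCommGroup A] {v : SLink m → A} (hv : STypeLE n v) {x : AA m}
    (hx : x ∈ J m (n + 1)) : hat v x = 0 := by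
  have : J m (n + 1) ≤ (hat v).ker := by
    rw [J, AddSubgroup.closure_le]
    rintro _ ⟨k, S, y, hS, hl, rfl⟩
    rw [SetLike.mem_coe, AddMonoidHom.mem_ker, hat_res]
    exact hv k S y hS hl
  exact this hx

theorem cls_val {m : ℕ} {d : RD} (h : Val m d) : cls m d = uni (mkS d h) := by
  obtain ⟨k, b⟩ := d
  exact evS_pos _ h

theorem notSep_of_J {m n : ℕ} {d e : RD} (hd : Val m d) (he : Val m e)
    (h : cls m d - cls m e ∈ J m (n + 1)) : NotSep n (mkS d hd) (mkS e he) := by
  intro A _ v hv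
  have h1 := hat_J hv h
  rw [map_sub, cls_val hd, cls_val he, hat_uni, hat_uni] at h1
  exact sub_eq_zero.mp h1

/-! ### closures -/

theorem exists_closure {m : ℕ} (hm : 1 ≤ m) {d : RD} (hd : Val m d) : ∃ l : LData m, IsClosure d l := by
  classical
  obtain ⟨hb, h1, h2⟩ := hd
  let c : ℕ → ℕ := fun a => if h : a < m + d.k then (h1 a h).choose else 0
  have hc : ∀ a, a < m + d.k → c a < m ∧ (pm d.b).SameCycle (c a) a := by
    intro a ha
    simp only [c, dif_pos ha]
    exact (h1 a ha).choose_spec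
  have hcm : ∀ a, c a < m := by
    intro a
    by_cases ha : a < m + d.k
    · exact (hc a ha).1
    · simp only [c, dif_neg ha]; omega
  have hci : ∀ i, i < m → c i = i := by
    intro i hi
    have := hc i (by omega)
    exact h2 _ this.1 _ hi this.2
  refine ⟨⟨m + d.k, d.b, fun a => ⟨c a, hcm a⟩, hb, ?_, ?_⟩, rfl, rfl, ?_⟩
  · intro i
    exact ⟨i, by have := i.2; omega, Fin.ext (hci i i.2)⟩
  · intro a ha x hx
    have e1 := hc a ha
    have e2 := hc x hx
    constructor
    · intro h
      have h' : c a = c x := congrArg Fin.val h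
      rw [h'] at e1
      exact e1.2.symm.trans e2.2
    · intro h
      apply Fin.ext
      exact h2 _ e1.1 _ e2.1 (e1.2.trans (h.trans e2.2.symm))
  · intro i
    exact Fin.ext (hci i i.2)

/-- the colour of a strand of the closure -/
theorem closure_col {m : ℕ} {d : RD} {l : LData m} (hl : IsClosure d l) {a : ℕ} (ha : a < m + d.k)
    {i : ℕ} (hi : i < m) (hs : (pm d.b).SameCycle i a) : l.col a = ⟨i, hi⟩ := by
  obtain ⟨hN, hb, hc⟩ := hl
  have h1 := hc ⟨i, hi⟩
  have h2 := (l.cyc i (by omega) a (by omega)).mpr (by rw [hb]; exact hs)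
  rw [← h2]; exact h1

theorem closure_approx {m n : ℕ} {d e : RD} (hd : Val m d) (he : Val m e)
    (h : cls m d - cls m e ∈ J m (n + 1)) {l l' : LData m} (hl : IsClosure d l)
    (hl' : IsClosure e l') : Approx n (Quot.mk _ l : Link m) (Quot.mk _ l') :=
  Relation.EqvGen.rel _ _ ⟨⟨d, hd⟩, ⟨e, he⟩, l, l', notSep_of_J hd he h, hl, hl', rfl, rfl⟩

end Pool.Agent.K1H35.LK
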