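import Pool.Agent.K1H35.LK.Main
import Pool.Agent.K1H73.LK.Mul
import Pool.Agent.K1H93.LK.Real

/-!
# The converse: `L ≈_n L'` implies that type `n` invariants of links agree
-/

set_option autoImplicit false

namespace Pool.Agent.K1H35.LK

open Equiv

theorem closure_link_unique {m : ℕ} {d : RD} (hd : Val m d) {l l' : LData m} (hl : IsClosure d l)
    (hl' : IsClosure d l') : (Quot.mk _ l : Link m) = Quot.mk _ l' := by
  refine Quot.sound (LMove.conj l l' 1 (one_mem _) ?_ ?_ ?_)
  · rw [hl.1, hl'.1]
  · rw [hl.2.1, hl'.2.1]; group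
  · intro a ha
    rw [hl.1] at ha
    obtain ⟨i, hi, hs⟩ := hd.2.1 a ha
    rw [map_one, Perm.one_apply, closure_col hl ha hi hs, closure_col hl' ha hi hs]

/-- conjugation of a closed braid -/
def conjL (hR : S_REAL) {m : ℕ} (l : LData m) (g : Br) (hg : g ∈ BN l.N) : LData m :=
  ⟨l.N, g * l.b * g⁻¹, fun a => l.col ((pm g)⁻¹ a), mul_mem (mul_mem hg l.mem) (inv_mem hg),
    fun i => by
      obtain ⟨a, ha, hai⟩ := l.surj i
      exact ⟨pm g a, hR.2.1 _ _ hg a ha, by rw [ipa]; exact hai⟩,
    fun a ha c hc => by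
      have h1 : ∀ a, a < l.N → (pm g)⁻¹ a < l.N := by
        intro a ha
        by_contra hcon
        have := hR.1 l.N g hg ((pm g)⁻¹ a) (by omega)
        rw [pai] at this
        omega
      rw [map_mul, map_mul, map_inv, Perm.sameCycle_conj]
      exact l.cyc _ (h1 a ha) _ (h1 c hc)⟩

theorem conjL_eq (hR : S_REAL) {m : ℕ} (l : LData m) (g : Br) (hg : g ∈ BN l.N) :
    (Quot.mk _ l : Link m) = Quot.mk _ (conjL hR l g hg) :=
  Quot.sound (LMove.conj l _ g hg rfl rfl (fun a _ => by
    show l.col ((pm g)⁻¹ (pm g a)) = l.col a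
    rw [ipa]))

theorem stab_link (hR : S_REAL) {m k : ℕ} {x y z : Br} (h0 : 0 < m + k) (hx : x ∈ BN (m + k))
    (hy : y ∈ BN (m + k)) (hz : z = s (m + k - 1) ∨ z = (s (m + k - 1))⁻¹)
    (hd : Val m ⟨k, x * y⟩) (he : Val m ⟨k + 1, x * z * y⟩) {l l' : LData m}
    (hl : IsClosure ⟨k, x * y⟩ l) (hl' : IsClosure ⟨k + 1, x * z * y⟩ l') :
    (Quot.mk _ l : Link m) = Quot.mk _ l' := by
  have hN := hl.1
  have hN' := hl'.1
  simp only at hN hN'
  have hyl : y ∈ BN l.N := by rw [hN]; exact hy
  have hyl' : y ∈ BN l'.N := by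
    rw [hN']; exact hR.2.2.2.2.1 (m + k) (m + (k + 1)) (by omega) hy
  rw [conjL_eq hR l y hyl, conjL_eq hR l' y hyl']
  have hyinv : ∀ a, a < m + k → (pm y)⁻¹ a < m + k := by
    intro a ha
    by_contra hcon
    have := hR.1 (m + k) y hy ((pm y)⁻¹ a) (by omega)
    rw [pai] at this
    omega
  refine Quot.sound (LMove.stab _ _ (by show 0 < l.N; omega) ?_ ?_ ?_)
  · show l'.N = l.N + 1
    omega
  · show y * l'.b * y⁻¹ = y * l.b * y⁻¹ * s (l.N - 1) ∨ y * l'.b * y⁻¹ = y * l.b * y⁻¹ * (s (l.N - 1))⁻¹
    rw [hl'.2.1, hl.2.1, hN]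
    rcases hz with hz | hz
    · left
      simp only [hz]
      group
    · right
      simp only [hz]
      group
  · intro a ha
    change a < l.N at ha
    rw [hN] at ha
    show l'.col ((pm y)⁻¹ a) = l.col ((pm y)⁻¹ a)
    have hc := hyinv a ha
    set c := (pm y)⁻¹ a with hcdef
    obtain ⟨i, hi, hs⟩ := hd.2.1 c hc
    rw [closure_col hl hc hi hs]
    have hpz : pm z = swap (m + k - 1) (m + k) := by
      rcases hz with hz | hz
      · rw [hz, pm_s]; congr 1; omega
      · rw [hz, map_inv, pm_s, swap_inv]; congr 1; omega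
    have hyN : pm y (m + k) = m + k := hR.1 _ _ hy _ le_rfl
    have hxN : pm x (m + k) = m + k := hR.1 _ _ hx _ le_rfl
    have hp : pm (x * z * y) = pm (x * y) * swap ((pm y)⁻¹ (m + k - 1)) (m + k) := by
      have h1 : swap ((pm y)⁻¹ (m + k - 1)) (m + k) = (pm y)⁻¹ * swap (m + k - 1) (m + k) * pm y := by
        have h2 : (pm y)⁻¹ (m + k) = m + k := by
          conv_lhs => rw [← hyN]
          rw [ipa]
        have h3 := Equiv.swap_apply_apply (pm y)⁻¹ (m + k - 1) (m + k)
        rw [h2, inv_inv] at h3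
        exact h3
      rw [h1, map_mul, map_mul, map_mul, hpz]
      group
    refine closure_col hl' (by show c < m + (k + 1); omega) hi ?_
    show (pm (x * z * y)).SameCycle i c
    rw [hp]
    refine (Pool.Agent.K1H73.LK.sc_swap ?_ ?_ ?_ ?_).mpr hs
    · rw [map_mul, Perm.mul_apply, hyN, hxN]
    · have := hyinv (m + k - 1) (by omega); omega
    · omega
    · omega

theorem link_of_mv (hR : S_REAL) {m : ℕ} {d e : RD} (hd : Val m d) (he : Val m e) (h : Mv m d e)
    {l l' : LData m} (hl : IsClosure d l) (hl' : IsClosure e l') :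
    (Quot.mk _ l : Link m) = Quot.mk _ l' := by
  cases h with
  | conj k b g hg =>
    have hgN := hR.2.2.2.1 m (m + k) hg
    refine Quot.sound (LMove.conj l l' g ?_ ?_ ?_ ?_)
    · rw [hl.1]; exact hgN
    · rw [hl.1, hl'.1]
    · rw [hl.2.1, hl'.2.1]
    · intro a ha
      rw [hl.1] at ha
      obtain ⟨i, hi, hs⟩ := hd.2.1 a ha
      rw [closure_col hl ha hi hs]
      refine closure_col hl' (hR.2.1 _ _ hgN a ha) hi ?_
      show (pm (g * b * g⁻¹)).SameCycle i (pm g a)
      rw [map_mul, map_mul, map_inv, Perm.sameCycle_conj, ipa]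
      have h1 : (pm g)⁻¹ i = i := by
        have := hR.2.2.1 m (m + k) g hg i hi
        conv_lhs => rw [← this]
        rw [ipa]
      rw [h1]
      exact hs
  | stab k x y h0 hx hy =>
    exact stab_link hR h0 hx hy (Or.inl rfl) hd he hl hl'
  | stabInv k x y h0 hx hy =>
    exact stab_link hR h0 hx hy (Or.inr rfl) hd he hl hl'

theorem res_congr_pm {A : Type} [AddCommGroup A] {N : ℕ} {f g : Br → A} {S : List (ℕ × Br)} {y : Br}
    (hS : Sing N S y) (h : ∀ b ∈ BN N, pm b = pm (pos S y) → f b = g b) :
    res f S y = res g S y := by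
  induction S generalizing y with
  | nil => exact h y hS.1 rfl
  | cons p S ih =>
    obtain ⟨i, z⟩ := p
    obtain ⟨h1, h2⟩ := sing_cons hS
    have hpm : pm (y * s i * z) = pm (y * (s i)⁻¹ * z) := by
      simp only [map_mul, map_inv, pm_s, swap_inv]
    simp only [res]
    rw [ih h1 h, ih h2 (fun b hb hbp => h b hb (hbp.trans (pm_pos S hpm).symm))]

/-- The known direction. -/
theorem approx_sep (hR : S_REAL) {m n : ℕ} {L L' : Link m} (h : Approx n L L') {A : Type}
    [AddCommGroup A] (v : Link m → A) (hv : LTypeLE n v) : v L = v L' := by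
  classical
  have hm : 1 ≤ m := by
    induction L using Quot.ind with
    | mk l =>
      have := (l.col 0).2
      omega
  induction h with
  | refl => rfl
  | symm _ _ _ ih => exact ih.symm
  | trans _ _ _ _ _ ih1 ih2 => exact ih1.trans ih2
  | rel L L' h =>
    obtain ⟨d, d', l, l', hns, hl, hl', rfl, rfl⟩ := h
    choose cl hcl using (fun (d : SData m) => exists_closure hm d.2)
    let w : SLink m → A := Quot.lift (fun d : SData m => v (Quot.mk _ (cl d)))
      (fun d e hde => congrArg v (link_of_mv hR d.2 e.2 hde (hcl d) (hcl e)))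
    have hw : ∀ (d : SData m) (l : LData m), IsClosure d.1 l → w (Quot.mk _ d) = v (Quot.mk _ l) := by
      intro d l hl
      exact congrArg v (closure_link_unique d.2 (hcl d) hl)
    have hwt : STypeLE n w := by
      intro k S y hS hlen
      by_cases hval : Val m ⟨k, pos S y⟩
      · obtain ⟨l0, hl0⟩ := exists_closure hm hval
        have hN0 : l0.N = m + k := hl0.1
        have key : res (evS w k) S y = res (evL v (m + k) l0.col) S y := by
          refine res_congr_pm hS (fun b hb hbp => ?_)
          have h1 : Val m ⟨k, b⟩ := ⟨hb, by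
            show Ok m (m + k) (pm b)
            rw [hbp]; exact hval.2⟩
          have h2 : LVal m (m + k) l0.col b := by
            refine ⟨hb, ?_, ?_⟩
            · rw [← hN0]; exact l0.surj
            · rw [hbp, ← hN0]
              have := l0.cyc
              rw [hl0.2.1] at this
              exact this
          have e1 : evS w k b = w (mkS ⟨k, b⟩ h1) := evS_pos w h1
          have e2 : evL v (m + k) l0.col b = v (Quot.mk _ ⟨m + k, b, l0.col, h2.1, h2.2.1, h2.2.2⟩) := by
            unfold evL
            rw [dif_pos h2]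
          rw [e1, e2]
          exact hw ⟨⟨k, b⟩, h1⟩ _ ⟨rfl, rfl, hl0.2.2⟩
        rw [key]
        exact hv (m + k) l0.col S y hS hlen
      · have key : res (evS w k) S y = res (fun _ => (0 : A)) S y := by
          refine res_congr_pm hS (fun b hb hbp => ?_)
          refine evS_neg w (fun h1 => hval ⟨pos_mem hS, ?_⟩)
          show Ok m (m + k) (pm (pos S y))
          rw [← hbp]; exact h1.2
        rw [key]
        have hz : ∀ (S : List (ℕ × Br)) (y : Br), res (fun _ : Br => (0 : A)) S y = 0 := by
          intro S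
          induction S with
          | nil => intro y; rfl
          | cons a S ih => intro y; obtain ⟨i, z⟩ := a; simp only [res, ih, sub_zero]
        exact hz S y
    have := hns A w hwt
    rw [hw d l hl, hw d' l' hl'] at this
    exact this

end Pool.Agent.K1H35.LK
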