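import Pool.Agent.K1H35.LK.Eta

/-!
# Final assembly
-/

set_option autoImplicit false

namespace Pool.Agent.K1H35.LK

open Equiv

/-! ### resolutions -/

/-- the positive resolution -/
def pos : List (ℕ × Br) → Br → Br
  | [], y => y
  | (i, z) :: S, y => pos S (y * s i * z)

theorem pai (π : Perm ℕ) (a : ℕ) : π (π⁻¹ a) = a := π.apply_symm_apply a

theorem ipa (π : Perm ℕ) (a : ℕ) : π⁻¹ (π a) = a := π.symm_apply_apply a

theorem pm_pos (S : List (ℕ × Br)) {y y' : Br} (h : pm y = pm y') : pm (pos S y) = pm (pos S y') := by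
  induction S generalizing y y' with
  | nil => exact h
  | cons p S ih =>
    obtain ⟨i, z⟩ := p
    simp only [pos]
    exact ih (by rw [map_mul, map_mul, map_mul, map_mul, h])

theorem sing_cons {N i : ℕ} {z y : Br} {S : List (ℕ × Br)} (h : Sing N ((i, z) :: S) y) :
    Sing N S (y * s i * z) ∧ Sing N S (y * (s i)⁻¹ * z) := by
  obtain ⟨hy, hS⟩ := h
  have hp := hS (i, z) (by simp)
  have hs : s i ∈ BN N := Subgroup.subset_closure ⟨i, hp.1, rfl⟩
  exact ⟨⟨mul_mem (mul_mem hy hs) hp.2, fun q hq => hS q (by simp [hq])⟩,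
    ⟨mul_mem (mul_mem hy (inv_mem hs)) hp.2, fun q hq => hS q (by simp [hq])⟩⟩

theorem pos_mem {N : ℕ} {S : List (ℕ × Br)} {y : Br} (h : Sing N S y) : pos S y ∈ BN N := by
  induction S generalizing y with
  | nil => exact h.1
  | cons p S ih =>
    obtain ⟨i, z⟩ := p
    exact ih (sing_cons h).1

open Classical in
theorem res_case {A : Type} [AddCommGroup A] {N : ℕ} (P : Br → Prop)
    (hP : ∀ b ∈ BN N, ∀ b' ∈ BN N, pm b = pm b' → (P b ↔ P b')) (F : Br → A)
    {S : List (ℕ × Br)} {y : Br} (h : Sing N S y) :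
    (P (pos S y) → (res (fun b => if P b then F b else 0) S y : A) = res F S y) ∧
      (¬ P (pos S y) → (res (fun b => if P b then F b else 0) S y : A) = 0) := by
  induction S generalizing y with
  | nil => exact ⟨fun hc => if_pos hc, fun hc => if_neg hc⟩
  | cons p S ih =>
    obtain ⟨i, z⟩ := p
    obtain ⟨h1, h2⟩ := sing_cons h
    have hpm : pm (y * s i * z) = pm (y * (s i)⁻¹ * z) := by
      simp only [map_mul, map_inv, pm_s, swap_inv]
    have e : P (pos S (y * s i * z)) ↔ P (pos S (y * (s i)⁻¹ * z)) :=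
      hP _ (pos_mem h1) _ (pos_mem h2) (pm_pos S hpm)
    refine ⟨fun hc => ?_, fun hc => ?_⟩
    · have hc' : P (pos S (y * s i * z)) := hc
      simp only [res, (ih h1).1 hc', (ih h2).1 (e.mp hc')]
    · have hc' : ¬ P (pos S (y * s i * z)) := hc
      simp only [res, (ih h1).2 hc', (ih h2).2 (fun hh => hc' (e.mpr hh)), sub_zero]

theorem res_left {A : Type} [AddCommGroup A] (F : Br → A) (g : Br) (S : List (ℕ × Br)) (y : Br) :
    res (fun b => F (g * b)) S y = res F S (g * y) := by
  induction S generalizing y with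
  | nil => rfl
  | cons p S ih =>
    obtain ⟨i, z⟩ := p
    simp only [res, ih, mul_assoc]

theorem res_right {N : ℕ} {g : Br} (hg : g ∈ BN N) (S : List (ℕ × Br)) (hS : S ≠ [])
    (hSing : ∀ p ∈ S, p.1 + 1 < N ∧ p.2 ∈ BN N) :
    ∃ S' : List (ℕ × Br), S'.length = S.length ∧ (∀ p ∈ S', p.1 + 1 < N ∧ p.2 ∈ BN N) ∧
      ∀ (A : Type) [AddCommGroup A] (F : Br → A) (y : Br), res (fun b => F (b * g)) S y = res F S' y := by
  induction S with
  | nil => exact absurd rfl hS
  | cons p S ih =>
    obtain ⟨i, z⟩ := p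
    have hp := hSing (i, z) (by simp)
    by_cases hnil : S = []
    · subst hnil
      refine ⟨[(i, z * g)], rfl, ?_, ?_⟩
      · intro q hq
        simp only [List.mem_singleton] at hq
        subst hq
        exact ⟨hp.1, mul_mem hp.2 hg⟩
      · intro A _ F y
        simp only [res, mul_assoc]
    · obtain ⟨S', h1, h2, h3⟩ := ih hnil (fun q hq => hSing q (by simp [hq]))
      refine ⟨(i, z) :: S', by simp [h1], ?_, ?_⟩
      · intro q hq
        rcases List.mem_cons.mp hq with rfl | hq
        · exact hp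
        · exact h2 q hq
      · intro A _ F y
        simp only [res, h3]

theorem res_zero_succ {A : Type} [AddCommGroup A] {N D : ℕ} {F : Br → A}
    (h : ∀ S y, Sing N S y → S.length = D → res F S y = 0) :
    ∀ S y, Sing N S y → S.length = D + 1 → res F S y = 0 := by
  intro S y hS hl
  cases S with
  | nil => simp at hl
  | cons p S =>
    obtain ⟨i, z⟩ := p
    obtain ⟨h1, h2⟩ := sing_cons hS
    have hl' : S.length = D := by simpa using hl
    rw [res, h _ _ h1 hl', h _ _ h2 hl', sub_zero]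

/-! ### opening a closed braid -/

theorem le_of_surj {m N : ℕ} {col : ℕ → Fin m} (h : ∀ i, ∃ a < N, col a = i) : m ≤ N := by
  choose f hf hf2 using h
  have hinj : Function.Injective (fun i : Fin m => (⟨f i, hf i⟩ : Fin N)) := by
    intro i j hij
    have h1 : f i = f j := congrArg Fin.val hij
    rw [← hf2 i, h1, hf2 j]
  simpa using Fintype.card_le_of_injective _ hinj

/-- `g` opens the closed braid on `N` strands with the colours `col` -/
def Good {m : ℕ} (N : ℕ) (col : ℕ → Fin m) (g : Br) : Prop :=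
  g ∈ BN N ∧ ∀ j : Fin m, col ((pm g)⁻¹ j) = j

theorem exists_good (hR : S_REAL) {m N : ℕ} {col : ℕ → Fin m} (h : ∀ i, ∃ a < N, col a = i) :
    ∃ g, Good N col g := by
  have hmN := le_of_surj h
  choose f hf hf2 using h
  have hinj : Function.Injective f := by
    intro i j hij
    rw [← hf2 i, hij, hf2 j]
  obtain ⟨g, hg, hg2⟩ := hR.2.2.2.2.2.2.2.2.1 N m (fun a => if h : a < m then f ⟨a, h⟩ else 0) hmN
    (by intro j hj; simp only [dif_pos hj]; exact hf _)
    (by
      intro i j hi hj hij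
      simp only [dif_pos hi, dif_pos hj] at hij
      have := hinj hij
      exact congrArg Fin.val this)
  refine ⟨g⁻¹, inv_mem hg, ?_⟩
  intro j
  rw [map_inv, inv_inv, hg2 j j.2, dif_pos j.2]
  exact hf2 j

/-- the string link obtained by opening -/
def opn (m N : ℕ) (b g : Br) : RD := ⟨N - m, g * b * g⁻¹⟩

theorem good_lt (hR : S_REAL) {m N : ℕ} {col : ℕ → Fin m} {g : Br} (hg : Good N col g) (a : ℕ)
    (ha : a < N) : (pm g)⁻¹ a < N := by
  by_contra hc
  have := hR.1 N g hg.1 ((pm g)⁻¹ a) (by omega)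
  rw [pai] at this
  omega

theorem opn_val (hR : S_REAL) {m : ℕ} (l : LData m) {g : Br} (hg : Good l.N l.col g) :
    Val m (opn m l.N l.b g) := by
  have hmN := le_of_surj l.surj
  have hN : m + (l.N - m) = l.N := by omega
  refine ⟨?_, ?_, ?_⟩
  · show g * l.b * g⁻¹ ∈ BN (m + (l.N - m))
    rw [hN]
    exact mul_mem (mul_mem hg.1 l.mem) (inv_mem hg.1)
  · show ∀ a < m + (l.N - m), ∃ i < m, (pm (g * l.b * g⁻¹)).SameCycle i a
    rw [hN]
    intro a ha
    refine ⟨l.col ((pm g)⁻¹ a), (l.col _).2, ?_⟩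
    rw [map_mul, map_mul, map_inv, Perm.sameCycle_conj]
    refine (l.cyc _ (good_lt hR hg _ (by have := (l.col ((pm g)⁻¹ a)).2; omega)) _
      (good_lt hR hg a ha)).mp ?_
    exact hg.2 _
  · intro i hi j hj hs
    have hs' : (pm (g * l.b * g⁻¹)).SameCycle i j := hs
    rw [map_mul, map_mul, map_inv, Perm.sameCycle_conj] at hs'
    have := (l.cyc _ (good_lt hR hg i (by omega)) _ (good_lt hR hg j (by omega))).mpr hs'
    have h1 := hg.2 ⟨i, hi⟩
    have h2 := hg.2 ⟨j, hj⟩
    simp only at h1 h2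
    rw [h1, h2] at this
    exact congrArg Fin.val this

theorem opn_closure (hR : S_REAL) {m : ℕ} (l : LData m) {g : Br} (hg : Good l.N l.col g) :
    ∃ l' : LData m, IsClosure (opn m l.N l.b g) l' ∧ (Quot.mk _ l : Link m) = Quot.mk _ l' := by
  have hmN := le_of_surj l.surj
  have hN : m + (l.N - m) = l.N := by omega
  have hlt : ∀ a, a < l.N → pm g a < l.N := fun a ha => hR.2.1 _ _ hg.1 a ha
  refine ⟨⟨l.N, g * l.b * g⁻¹, fun a => l.col ((pm g)⁻¹ a), mul_mem (mul_mem hg.1 l.mem)
    (inv_mem hg.1), ?_, ?_⟩, ⟨hN.symm, rfl, hg.2⟩, Quot.sound (LMove.conj l _ g hg.1 rfl rfl ?_)⟩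
  · intro i
    obtain ⟨a, ha, hai⟩ := l.surj i
    exact ⟨pm g a, hlt a ha, by simpa using hai⟩
  · intro a ha c hc
    rw [map_mul, map_mul, map_inv, Perm.sameCycle_conj]
    exact l.cyc _ (good_lt hR hg a ha) _ (good_lt hR hg c hc)
  · intro a ha
    show l.col ((pm g)⁻¹ (pm g a)) = l.col a
    rw [ipa]

/-- two ways of opening -/
theorem opn_el (hR : S_REAL) (hCut : S_CUT) {m : ℕ} (hm : 1 ≤ m) (l : LData m) {g g' : Br}
    (hg : Good l.N l.col g) (hg' : Good l.N l.col g') :
    El m (opn m l.N l.b g) (opn m l.N l.b g') := by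
  have hmN := le_of_surj l.surj
  have hN : m + (l.N - m) = l.N := by omega
  have h := hCut m (l.N - m) (g * l.b * g⁻¹) (g' * g⁻¹) hm (opn_val hR l hg)
    (by rw [hN]; exact mul_mem hg'.1 (inv_mem hg.1))
    (by
      intro j hj
      rw [map_mul, map_mul, map_inv, Perm.sameCycle_conj]
      refine (l.cyc _ ?_ _ (good_lt hR hg j (by omega))).mp ?_
      · rw [map_mul, map_inv, mul_inv_rev, inv_inv, Perm.mul_apply, ipa]
        exact good_lt hR hg' j (by omega)
      · rw [map_mul, map_inv, mul_inv_rev, inv_inv, Perm.mul_apply, ipa]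
        have h1 := hg.2 ⟨j, hj⟩
        have h2 := hg'.2 ⟨j, hj⟩
        simp only at h1 h2
        rw [h1, h2])
  have e : g' * g⁻¹ * (g * l.b * g⁻¹) * (g' * g⁻¹)⁻¹ = g' * l.b * g'⁻¹ := by group
  rw [e] at h
  exact h.2

/-! ### the group of automorphisms -/

/-- `h` maps classes of string links to classes of string links with equivalent closures. -/
def Pres (m n : ℕ) (h : (AA m ⧸ J m (n + 1)) ≃+ (AA m ⧸ J m (n + 1))) : Prop :=
  ∀ e, Val m e → ∃ e', Val m e' ∧
    h (QuotientAddGroup.mk (cls m e)) = QuotientAddGroup.mk (cls m e') ∧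
    ∀ l l' : LData m, IsClosure e l → IsClosure e' l' →
      Approx n (Quot.mk _ l : Link m) (Quot.mk _ l')

/-- the image of the filtration -/
noncomputable def FF (m n D : ℕ) : AddSubgroup (AA m ⧸ J m (n + 1)) :=
  (J m D).map (QuotientAddGroup.mk' (J m (n + 1)))

theorem mem_FF {m n D : ℕ} {x : AA m ⧸ J m (n + 1)} :
    x ∈ FF m n D ↔ ∃ y ∈ J m D, QuotientAddGroup.mk y = x := Iff.rfl

theorem FF_mono (hJE : S_JE) (m n : ℕ) {D E : ℕ} (h : D ≤ E) : FF m n E ≤ FF m n D :=
  AddSubgroup.map_mono (J_mono hJE m h)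

theorem FF_zero (hJE : S_JE) (m n : ℕ) : FF m n 0 = ⊤ := by
  rw [eq_top_iff]
  intro x _
  induction x using QuotientAddGroup.induction_on with
  | H y => exact ⟨y, cls_mem_zero hJE m y, rfl⟩

theorem FF_top (m n : ℕ) : FF m n (n + 1) = ⊥ := by
  rw [eq_bot_iff]
  rintro x ⟨y, hy, rfl⟩
  exact (QuotientAddGroup.eq_zero_iff y).mpr hy

/-- unipotent -/
def Uni (m n : ℕ) (h : (AA m ⧸ J m (n + 1)) ≃+ (AA m ⧸ J m (n + 1))) : Prop :=
  ∀ k, ∀ x ∈ FF m n k, h x - x ∈ FF m n (k + 1)

theorem uni_surj (hJE : S_JE) {m n : ℕ} {h : (AA m ⧸ J m (n + 1)) ≃+ (AA m ⧸ J m (n + 1))}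
    (hu : Uni m n h) : ∀ r k, n + 1 ≤ k + r → ∀ x ∈ FF m n k, h.symm x ∈ FF m n k := by
  intro r
  induction r with
  | zero =>
    intro k hk x hx
    have h1 : x ∈ FF m n (n + 1) := FF_mono hJE m n (by omega : n + 1 ≤ k) hx
    rw [FF_top] at h1
    have h2 : x = 0 := h1
    rw [h2, map_zero]
    exact zero_mem _
  | succ r ih =>
    intro k hk x hx
    have h1 := hu k x hx
    have h2 := ih (k + 1) (by omega) _ h1
    rw [map_sub, AddEquiv.symm_apply_apply] at h2
    have h3 : h.symm x = x - (x - h.symm x) := by abel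
    rw [h3]
    exact sub_mem hx (FF_mono hJE m n (Nat.le_succ k) h2)

theorem uni_symm (hJE : S_JE) {m n : ℕ} {h : (AA m ⧸ J m (n + 1)) ≃+ (AA m ⧸ J m (n + 1))}
    (hu : Uni m n h) : Uni m n h.symm := by
  intro k x hx
  have h1 := uni_surj hJE hu (n + 1) k (by omega) x hx
  have h2 := hu k _ h1
  rw [AddEquiv.apply_symm_apply] at h2
  have := neg_mem h2
  simpa using this

theorem uni_trans {m n : ℕ} {h h' : (AA m ⧸ J m (n + 1)) ≃+ (AA m ⧸ J m (n + 1))}
    (hJE : S_JE) (hu : Uni m n h) (hu' : Uni m n h') : Uni m n (h.trans h') := by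
  intro k x hx
  have h1 := hu k x hx
  have h2 : h x ∈ FF m n k := by
    have := add_mem (FF_mono hJE m n (Nat.le_succ k) h1) hx
    simpa using this
  have h3 := hu' k _ h2
  have := add_mem h3 h1
  simpa using this

theorem pres_trans {m n : ℕ} (hm : 1 ≤ m) {h h' : (AA m ⧸ J m (n + 1)) ≃+ (AA m ⧸ J m (n + 1))}
    (hp : Pres m n h) (hp' : Pres m n h') : Pres m n (h.trans h') := by
  intro e he
  obtain ⟨e1, he1, h1, h2⟩ := hp e he
  obtain ⟨e2, he2, h3, h4⟩ := hp' e1 he1
  refine ⟨e2, he2, ?_, ?_⟩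
  · show h' (h _) = _
    rw [h1, h3]
  · intro l l' hl hl'
    obtain ⟨l1, hl1⟩ := exists_closure hm he1
    exact (h2 l l1 hl hl1).trans _ _ _ (h4 l1 l' hl1 hl')

/-- two closures of the same diagram -/
theorem closure_unique {m n : ℕ} {d : RD} (hd : Val m d) {l l' : LData m} (hl : IsClosure d l)
    (hl' : IsClosure d l') : Approx n (Quot.mk _ l : Link m) (Quot.mk _ l') :=
  closure_approx hd hd (by rw [sub_self]; exact zero_mem _) hl hl'

/-- The group of automorphisms. -/
def HH (m n : ℕ) : Set ((AA m ⧸ J m (n + 1)) ≃+ (AA m ⧸ J m (n + 1))) :=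
  {h | Uni m n h ∧ Pres m n h ∧ Pres m n h.symm}

theorem HH_refl (m n : ℕ) : AddEquiv.refl _ ∈ HH m n := by
  refine ⟨?_, ?_, ?_⟩
  · intro k x _
    simp
  · intro e he
    exact ⟨e, he, rfl, fun l l' hl hl' => closure_unique he hl hl'⟩
  · intro e he
    exact ⟨e, he, rfl, fun l l' hl hl' => closure_unique he hl hl'⟩

theorem HH_symm (hJE : S_JE) {m n : ℕ} {h} (hh : h ∈ HH m n) : h.symm ∈ HH m n :=
  ⟨uni_symm hJE hh.1, hh.2.2, hh.2.1⟩

theorem HH_trans (hJE : S_JE) {m n : ℕ} (hm : 1 ≤ m) {h h'} (hh : h ∈ HH m n) (hh' : h' ∈ HH m n) :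
    h.trans h' ∈ HH m n :=
  ⟨uni_trans hJE hh.1 hh'.1, pres_trans hm hh.2.1 hh'.2.1, pres_trans hm hh'.2.2 hh.2.2⟩

theorem eta_mem (hEta : S_ETA) {m n : ℕ} (hm : 1 ≤ m) {d d' : RD} (hd : Val m d) (hd' : Val m d')
    (h : ElE m d d') : ∃ η ∈ HH m n,
      η (QuotientAddGroup.mk (cls m d')) = QuotientAddGroup.mk (cls m d) := by
  obtain ⟨η, h1, h2, h3, h4⟩ := hEta m n d d' hm hd hd' h
  refine ⟨η, ⟨?_, h3, ?_⟩, h2⟩
  · rintro k _ ⟨y, hy, rfl⟩
    obtain ⟨z, hz, hyz⟩ := h1 k y hy
    refine ⟨z, hz, ?_⟩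
    show QuotientAddGroup.mk z = η (QuotientAddGroup.mk y) - QuotientAddGroup.mk y
    rw [hyz]
    abel
  · intro e he
    obtain ⟨e', he', h5, h6⟩ := h4 e he
    refine ⟨e', he', ?_, h6⟩
    rw [← h5, AddEquiv.symm_apply_apply]

/-! ### the theorem -/

theorem t_MAINp (hR : S_REAL) (hCut : S_CUT) (hEta : S_ETA) (hJE : S_JE)
    (hFin : S_FINM) (hSep : S_SEP) (hPoly : S_POLY) (m : ℕ) (L L' : Link m)
    (hsep : ∀ p : ℕ, p.Prime → ∀ (n : ℕ) (v : Link m → ZMod p), LTypeLE n v → v L = v L') (n : ℕ) :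
    Approx n L L' := by
  classical
  induction L using Quot.ind with
  | mk l =>
  induction L' using Quot.ind with
  | mk l' =>
  have hm : 1 ≤ m := by
    have := (l.col 0).2
    omega
  by_contra hna
  -- open the links
  have hgood : ∀ l : LData m, ∃ g, Good l.N l.col g := fun l => exists_good hR l.surj
  choose gg hgg using hgood
  set d := opn m l.N l.b (gg l) with hd
  set d' := opn m l'.N l'.b (gg l') with hd'
  have vd : Val m d := opn_val hR l (hgg l)
  have vd' : Val m d' := opn_val hR l' (hgg l')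
  obtain ⟨c, hc, hlc⟩ := opn_closure hR l (hgg l)
  obtain ⟨c', hc', hlc'⟩ := opn_closure hR l' (hgg l')
  have hmk : ∀ {x y : AA m}, (QuotientAddGroup.mk x : AA m ⧸ J m (n + 1)) = QuotientAddGroup.mk y →
      x - y ∈ J m (n + 1) := by
    intro x y h
    rw [← QuotientAddGroup.eq_zero_iff (N := J m (n + 1)), QuotientAddGroup.mk_sub, h, sub_self]
  have hne : ∀ h ∈ HH m n, h (QuotientAddGroup.mk (cls m d)) ≠ QuotientAddGroup.mk (cls m d') := by
    intro h hh heq
    obtain ⟨e, he, h1, h2⟩ := hh.2.1 d vd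
    rw [h1] at heq
    obtain ⟨ce, hce⟩ := exists_closure hm he
    have a1 := h2 c ce hc hce
    have a2 := closure_approx he vd' (hmk heq) hce hc'
    apply hna
    rw [hlc, hlc']
    exact a1.trans _ _ _ a2
  obtain ⟨p, hp, Q, iQ, q, f, hQfin, hQcard, hinv, hfne⟩ :=
    hSep (AA m ⧸ J m (n + 1)) (hFin m n hm) (FF m n) (n + 1) (FF_zero hJE m n) (FF_top m n)
      (fun k => FF_mono hJE m n (Nat.le_succ k)) (HH m n) (HH_refl m n) (fun h hh => HH_symm hJE hh)
      (fun h hh h' hh' => HH_trans hJE hm hh hh') (fun h hh => hh.1) _ _ hne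
  obtain ⟨D, hD⟩ := hPoly p hp Q hQfin hQcard f n
  let val : RD → ZMod p := fun e => f (q (QuotientAddGroup.mk (cls m e)))
  -- invariance under the elementary moves
  have hval : ∀ e e', El m e e' → val e = val e' := by
    intro e e' h
    induction h with
    | rel x y h =>
      obtain ⟨hx, hy, h | h⟩ := h
      · have := hJE.2.2.1 m x y (Relation.EqvGen.rel _ _ ⟨hx, hy, h⟩)
        show f _ = f _
        rw [this]
      · obtain ⟨η, hη, h1⟩ := eta_mem (n := n) hEta hm hx hy h
        show f _ = f _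
        rw [← h1, hinv η hη]
    | refl x => rfl
    | symm x y _ ih => exact ih.symm
    | trans x y z _ _ ih1 ih2 => exact ih1.trans ih2
  have hopn : ∀ (l : LData m) g g', Good l.N l.col g → Good l.N l.col g' →
      val (opn m l.N l.b g) = val (opn m l.N l.b g') := by
    intro l g g' hg hg'
    exact hval _ _ (opn_el hR hCut hm l hg hg')
  -- the link invariant
  let v0 : LData m → ZMod p := fun l => val (opn m l.N l.b (gg l))
  have hv0 : ∀ l1 l2, LMove m l1 l2 → v0 l1 = v0 l2 := by
    intro l1 l2 h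
    cases h with
    | conj g hg hN hb hc =>
      have hgl1 : Good l1.N l1.col (gg l2 * g) := by
        refine ⟨mul_mem (by rw [← hN]; exact (hgg l2).1) hg, ?_⟩
        intro j
        have h1 := (hgg l2).2 j
        have h2 : (pm (gg l2))⁻¹ (j : ℕ) < l1.N := by
          rw [← hN]
          have := le_of_surj l2.surj
          exact good_lt hR (hgg l2) j (by have := j.2; omega)
        have h3 : (pm g)⁻¹ ((pm (gg l2))⁻¹ (j : ℕ)) < l1.N := by
          by_contra hcon
          have := hR.1 l1.N g hg ((pm g)⁻¹ ((pm (gg l2))⁻¹ (j : ℕ))) (by omega)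
          rw [pai] at this
          omega
        have h4 := hc _ h3
        rw [pai, h1] at h4
        rw [map_mul, mul_inv_rev, Perm.mul_apply]
        exact h4.symm
      have h1 := hopn l1 _ _ (hgg l1) hgl1
      show val _ = val _
      rw [h1]
      have : opn m l1.N l1.b (gg l2 * g) = opn m l2.N l2.b (gg l2) := by
        simp only [opn, hN, hb, RD.mk.injEq, true_and]
        group
      rw [this]
    | stab h0 hN hb hc =>
      have hg1 := hgg l1
      have hmN := le_of_surj l1.surj
      have hg2 : Good l2.N l2.col (gg l1) := by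
        refine ⟨by rw [hN]; exact hR.2.2.2.2.1 _ _ (by omega) hg1.1, ?_⟩
        intro j
        rw [hc _ (good_lt hR hg1 j (by have := j.2; omega))]
        exact hg1.2 j
      have h1 := hopn l2 _ _ (hgg l2) hg2
      show val _ = val _
      rw [h1]
      have e1 : l2.N - m = l1.N - m + 1 := by omega
      have e2 : m + (l1.N - m) - 1 = l1.N - 1 := by omega
      have e3 : m + (l1.N - m) = l1.N := by omega
      apply hval
      refine Relation.EqvGen.rel _ _ ⟨opn_val hR l1 hg1, opn_val hR l2 hg2, Or.inl ?_⟩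
      rcases hb with hb | hb
      · have h2 := Mv.stab (m := m) (l1.N - m) (gg l1 * l1.b) (gg l1)⁻¹ (by omega)
          (by rw [e3]; exact mul_mem hg1.1 l1.mem) (by rw [e3]; exact inv_mem hg1.1)
        rw [e2] at h2
        have : opn m l2.N l2.b (gg l1) =
            ⟨l1.N - m + 1, gg l1 * l1.b * s (l1.N - 1) * (gg l1)⁻¹⟩ := by
          simp only [opn, e1, hb, RD.mk.injEq, true_and]
          group
        rw [this]
        exact h2
      · have h2 := Mv.stabInv (m := m) (l1.N - m) (gg l1 * l1.b) (gg l1)⁻¹ (by omega)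
          (by rw [e3]; exact mul_mem hg1.1 l1.mem) (by rw [e3]; exact inv_mem hg1.1)
        rw [e2] at h2
        have : opn m l2.N l2.b (gg l1) =
            ⟨l1.N - m + 1, gg l1 * l1.b * (s (l1.N - 1))⁻¹ * (gg l1)⁻¹⟩ := by
          simp only [opn, e1, hb, RD.mk.injEq, true_and]
          group
        rw [this]
        exact h2
  let v : Link m → ZMod p := Quot.lift v0 hv0
  have hvt : LTypeLE D v := by
    intro N col S y hS hlen
    by_cases hcol : ∀ i, ∃ a < N, col a = i
    · obtain ⟨g, hg⟩ := exists_good hR hcol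
      have hmN := le_of_surj hcol
      have hP : ∀ b ∈ BN N, ∀ b' ∈ BN N, pm b = pm b' → (LVal m N col b ↔ LVal m N col b') := by
        intro b hb b' hb' hpm
        simp only [LVal, hpm, hb, hb', true_and]
      have hev : ∀ b, evL v N col b = if LVal m N col b then val (opn m N b g) else 0 := by
        intro b
        by_cases hb : LVal m N col b
        · rw [if_pos hb]
          unfold evL
          rw [dif_pos hb]
          exact hopn ⟨N, b, col, hb.1, hb.2.1, hb.2.2⟩ _ _ (hgg _) hg
        · rw [if_neg hb]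
          unfold evL
          rw [dif_neg hb]
      have hfun : evL v N col = fun b => if LVal m N col b then val (opn m N b g) else 0 := by
        funext b
        exact hev b
      rw [hfun]
      obtain ⟨h1, h2⟩ := res_case (fun b => LVal m N col b) hP (fun b => val (opn m N b g)) hS
      by_cases hc : LVal m N col (pos S y)
      · rw [h1 hc]
        have e3 : m + (N - m) = N := by omega
        have hu : ∀ S y, Sing N S y → S.length = n + 1 →
            res (fun b => q (QuotientAddGroup.mk (cls m (opn m N b g)))) S y = 0 := by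
          intro S y hS hl
          have hne : S ≠ [] := by
            intro h0
            rw [h0] at hl
            simp at hl
          obtain ⟨S', hl', hS', hr⟩ := res_right (inv_mem hg.1) S hne hS.2
          let φ : AA m →+ Q := q.comp (QuotientAddGroup.mk' (J m (n + 1)))
          have e4 : res (fun b => q (QuotientAddGroup.mk (cls m (opn m N b g)))) S y =
              φ (res (evS (m := m) uni (N - m)) S' (g * y)) := by
            rw [res_map, ← res_left, ← hr Q (fun b => φ (evS (m := m) uni (N - m) (g * b))) y]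
            congr 1
            funext b
            show _ = φ (evS (m := m) uni (N - m) (g * (b * g⁻¹)))
            rw [← mul_assoc]
            rfl
          rw [e4]
          have e5 : res (evS (m := m) uni (N - m)) S' (g * y) ∈ J m (n + 1) := by
            apply AddSubgroup.subset_closure
            refine ⟨N - m, S', g * y, ?_, by rw [hl', hl], rfl⟩
            rw [e3]
            exact ⟨mul_mem hg.1 hS.1, hS'⟩
          show q (QuotientAddGroup.mk _) = 0
          rw [(QuotientAddGroup.eq_zero_iff _).mpr e5, map_zero]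
        exact res_zero_succ (hD N _ hu) S y hS hlen
      · exact h2 hc
    · have hfun : evL v N col = fun _ => 0 := by
        funext b
        unfold evL
        rw [dif_neg (fun h => hcol h.2.1)]
      rw [hfun]
      have hz : ∀ (S : List (ℕ × Br)) (y : Br), res (fun _ : Br => (0 : ZMod p)) S y = 0 := by
        intro S
        induction S with
        | nil => intro y; rfl
        | cons a S ih => intro y; obtain ⟨i, z⟩ := a; simp only [res, ih, sub_zero]
      exact hz S y
  exact hfne (hsep p hp D v hvt)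

end Pool.Agent.K1H35.LK
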