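import Pool.Agent.K1H35.LK.Defs

/-!
# Permutations with finite support, cutting a cycle
-/

set_option autoImplicit false

namespace Pool.Agent.K1H35.LK

open Equiv

theorem fin_order (N : ℕ) (π : Perm ℕ) (h : ∀ a, N ≤ a → π a = a) : ∃ M, 0 < M ∧ π ^ M = 1 := by
  have hp : ∀ x, x < N ↔ π x < N := by
    intro x
    constructor
    · intro hx
      by_contra hc
      have h1 := h (π x) (by omega)
      have h2 := π.injective h1
      omega
    · intro hx
      by_contra hc
      have h1 := h x (by omega)
      omega
  let q : Perm {x // x < N} := π.subtypePerm (fun x => (hp x).symm)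
  have hq : Perm.ofSubtype q = π := by
    ext x
    by_cases hx : x < N
    · exact Perm.ofSubtype_apply_of_mem (p := fun x => x < N) q hx
    · rw [h x (by omega)]
      exact Perm.ofSubtype_apply_of_not_mem (p := fun x => x < N) q hx
  have hfin : Finite {x : ℕ // x < N} := Finite.of_injective (fun x => (⟨x.1, x.2⟩ : Fin N))
    (fun a b hab => Subtype.ext (by simpa using hab))
  have hfo : IsOfFinOrder q := isOfFinOrder_of_finite q
  obtain ⟨M, hM, hM1⟩ := hfo.exists_pow_eq_one
  refine ⟨M, hM, ?_⟩
  rw [← hq, ← map_pow, hM1, map_one]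

theorem sc_nat {N : ℕ} {π : Perm ℕ} (h : ∀ a, N ≤ a → π a = a) {x y : ℕ}
    (hxy : π.SameCycle x y) : ∃ t : ℕ, (π ^ t) x = y := by
  obtain ⟨M, hM, hM1⟩ := fin_order N π h
  obtain ⟨z, hz⟩ := hxy
  have hM' : (M : ℤ) ≠ 0 := by omega
  refine ⟨(z % M).toNat, ?_⟩
  have h0 : 0 ≤ z % M := Int.emod_nonneg _ hM'
  have h1 : π ^ (z % M) = π ^ z := by
    conv_rhs => rw [← Int.emod_add_mul_ediv z M, zpow_add, zpow_mul, zpow_natCast, hM1, one_zpow, mul_one]
  rw [← hz, ← h1]
  conv_rhs => rw [← Int.toNat_of_nonneg h0, zpow_natCast]

theorem sc_nat_pos {N : ℕ} {π : Perm ℕ} (h : ∀ a, N ≤ a → π a = a) {x y : ℕ}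
    (hxy : π.SameCycle x y) : ∃ t : ℕ, 1 ≤ t ∧ (π ^ t) x = y := by
  obtain ⟨M, hM, hM1⟩ := fin_order N π h
  obtain ⟨t, ht⟩ := sc_nat h hxy
  refine ⟨t + M, by omega, ?_⟩
  rw [pow_add, hM1, mul_one, ht]

/-- If the open strands `i` and `m` lie on the same cycle of `π`, then multiplication with the
transposition cuts this cycle. -/
theorem ok_split {m N i : ℕ} {π : Perm ℕ} (hN : ∀ a, N ≤ a → π a = a) (hi : i < m) (hmN : m < N)
    (h1 : Ok m N π) (h2 : π.SameCycle i m) : Ok (m + 1) N (π * swap i m) := by
  classical
  -- the first return to the open strands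
  have hlt : ∀ a, a < N → π a < N := by
    intro a ha
    by_contra hc
    have := π.injective (hN (π a) (by omega))
    omega
  have hex : ∀ a, a < N → ∃ t, (π ^ t) a < m + 1 := by
    intro a ha
    obtain ⟨j, hj, hs⟩ := h1.1 a ha
    obtain ⟨t, ht⟩ := sc_nat hN hs.symm
    exact ⟨t, by rw [ht]; omega⟩
  let F : ℕ → ℕ := fun a => if h : ∃ t, (π ^ t) a < m + 1 then (π ^ Nat.find h) a else a
  have hF0 : ∀ a, a < m + 1 → F a = a := by
    intro a ha
    have h : ∃ t, (π ^ t) a < m + 1 := ⟨0, by simpa using ha⟩
    have h0 : Nat.find h = 0 := by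
      rw [Nat.find_eq_zero]; simpa using ha
    simp only [F, dif_pos h, h0, pow_zero, Perm.one_apply]
  have hFlt : ∀ a, a < N → F a < m + 1 := by
    intro a ha
    simp only [F, dif_pos (hex a ha)]
    exact Nat.find_spec (hex a ha)
  have hF1 : ∀ a, a < N → ¬ a < m + 1 → F (π a) = F a := by
    intro a ha hna
    have e1 := hex a ha
    have e2 := hex (π a) (hlt a ha)
    have hfind : Nat.find e1 = Nat.find e2 + 1 := by
      have hp : ∀ t, (π ^ (t + 1)) a = (π ^ t) (π a) := by
        intro t; rw [pow_succ, Perm.mul_apply]
      apply le_antisymm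
      · apply Nat.find_min'
        rw [hp]; exact Nat.find_spec e2
      · have hpos : Nat.find e1 ≠ 0 := by
          intro h0
          have := Nat.find_spec e1
          rw [h0] at this
          exact hna (by simpa using this)
        obtain ⟨r, hr⟩ := Nat.exists_eq_succ_of_ne_zero hpos
        rw [hr]
        have : Nat.find e2 ≤ r := by
          apply Nat.find_min'
          rw [← hp, ← Nat.succ_eq_add_one, ← hr]
          exact Nat.find_spec e1
        omega
    simp only [F, dif_pos e1, dif_pos e2, hfind, pow_succ, Perm.mul_apply]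
  -- `F a` lies in the cycle of `a`
  have hFsc : ∀ a, a < N → π.SameCycle a (F a) := by
    intro a ha
    simp only [F, dif_pos (hex a ha)]
    exact ⟨Nat.find (hex a ha), by rw [zpow_natCast]⟩
  -- the open strands on the cycles
  have hcyc : ∀ x y, x < m + 1 → y < m + 1 → π.SameCycle x y → x = y ∨ (x = i ∧ y = m) ∨ (x = m ∧ y = i) := by
    intro x y hx hy hs
    rcases Nat.lt_succ_iff_lt_or_eq.mp hx with hx | hx <;>
      rcases Nat.lt_succ_iff_lt_or_eq.mp hy with hy | hy
    · exact Or.inl (h1.2 x hx y hy hs)
    · subst hy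
      have : x = i := h1.2 x hx i hi (hs.trans h2.symm)
      exact Or.inr (Or.inl ⟨this, rfl⟩)
    · subst hx
      have : i = y := h1.2 i hi y hy (h2.trans hs)
      exact Or.inr (Or.inr ⟨rfl, this.symm⟩)
    · exact Or.inl (hx.trans hy.symm)
  -- the first return
  have hret : ∀ x y, x < m + 1 → y < m + 1 → π.SameCycle x y →
      (∀ z, z < m + 1 → π.SameCycle x z → z = x ∨ z = y) → x ≠ y → F (π x) = y := by
    intro x y hx hy hs hz hxy
    have hxN : x < N := by omega
    have e1 := hFlt (π x) (hlt x hxN)
    have e2 : π.SameCycle x (F (π x)) := by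
      have := hFsc (π x) (hlt x hxN)
      exact (Perm.sameCycle_apply_left.mp this)
    rcases hz _ e1 e2 with h | h
    · -- then `x` returns to itself without meeting `y`: contradiction
      exfalso
      have e3 := hex (π x) (hlt x hxN)
      have hret0 : (π ^ (Nat.find e3 + 1)) x = x := by
        have : F (π x) = (π ^ Nat.find e3) (π x) := by simp only [F, dif_pos e3]
        rw [this] at h
        rw [pow_succ, Perm.mul_apply]; exact h
      obtain ⟨t, ht⟩ := sc_nat hN hs
      set P := Nat.find e3 + 1 with hP
      have hmod : (π ^ (t % P)) x = y := by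
        have hk : ∀ q, (π ^ (P * q)) x = x := by
          intro q
          induction q with
          | zero => simp
          | succ q ih => rw [Nat.mul_succ, pow_add, Perm.mul_apply, hret0, ih]
        have hdm : t % P + P * (t / P) = t := Nat.mod_add_div t P
        rw [← ht]
        conv_rhs => rw [← hdm, pow_add, Perm.mul_apply, hk]
      have hlt2 : t % P < P := Nat.mod_lt _ (by omega)
      rcases Nat.eq_zero_or_pos (t % P) with h0 | h0
      · rw [h0] at hmod
        exact hxy (by simpa using hmod)
      · obtain ⟨r, hr⟩ := Nat.exists_eq_succ_of_ne_zero (by omega : t % P ≠ 0)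
        have hmin := Nat.find_min e3 (show r < Nat.find e3 by omega)
        apply hmin
        have : (π ^ r) (π x) = y := by
          rw [← hmod, hr, pow_succ, Perm.mul_apply]
        rw [this]; exact hy
    · exact h
  have hret1 : ∀ x, x < m + 1 → (∀ z, z < m + 1 → π.SameCycle x z → z = x) → F (π x) = x := by
    intro x hx hz
    have hxN : x < N := by omega
    apply hz _ (hFlt _ (hlt x hxN))
    exact (Perm.sameCycle_apply_left.mp (hFsc (π x) (hlt x hxN)))
  set ρ := π * swap i m with hρ
  have hρN : ∀ a, a < N → ρ a < N := by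
    intro a ha
    rw [hρ, Perm.mul_apply]
    apply hlt
    rw [swap_apply_def]
    split_ifs <;> omega
  have hcol : ∀ a, a < N → F (ρ a) = F a := by
    intro a ha
    by_cases hB : a < m + 1
    · rw [hF0 a hB]
      by_cases hai : a = i
      · subst hai
        rw [hρ, Perm.mul_apply, swap_apply_left]
        apply hret m a (by omega) (by omega) h2.symm _ (by omega)
        intro z hz hs
        rcases hcyc m z (by omega) hz hs with h | h | h
        · exact Or.inl h.symm
        · exact Or.inl h.2
        · exact Or.inr h.2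
      · by_cases ham : a = m
        · subst ham
          rw [hρ, Perm.mul_apply, swap_apply_right]
          apply hret i a (by omega) (by omega) h2 _ (by omega)
          intro z hz hs
          rcases hcyc i z (by omega) hz hs with h | h | h
          · exact Or.inl h.symm
          · exact Or.inr h.2
          · exact Or.inl h.2
        · rw [hρ, Perm.mul_apply, swap_apply_of_ne_of_ne hai ham]
          apply hret1 a hB
          intro z hz hs
          rcases hcyc a z hB hz hs with h | h | h
          · exact h.symm
          · exact absurd h.1 hai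
          · exact absurd h.1 ham
    · have hai : a ≠ i := by omega
      have ham : a ≠ m := by omega
      rw [hρ, Perm.mul_apply, swap_apply_of_ne_of_ne hai ham]
      exact hF1 a ha hB
  have hρfix : ∀ a, N ≤ a → ρ a = a := by
    intro a ha
    rw [hρ, Perm.mul_apply, swap_apply_of_ne_of_ne (by omega) (by omega), hN a ha]
  refine ⟨?_, ?_⟩
  · intro a ha
    refine ⟨F a, hFlt a ha, ?_⟩
    -- follow the path
    have hsym : ρ.SameCycle a (F a) := by
      have e := hex a ha
      have hstep : ∀ t, t ≤ Nat.find e → (ρ ^ t) a = (π ^ t) a := by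
        intro t
        induction t with
        | zero => intro _; simp
        | succ t ih =>
          intro ht
          have h3 := ih (by omega)
          have h4 := Nat.find_min e (show t < Nat.find e by omega)
          have h5 : ρ ((π ^ t) a) = π ((π ^ t) a) := by
            rw [hρ, Perm.mul_apply, swap_apply_of_ne_of_ne (by omega) (by omega)]
          rw [pow_succ', Perm.mul_apply, h3, h5, pow_succ', Perm.mul_apply]
      refine ⟨Nat.find e, ?_⟩
      rw [zpow_natCast, hstep _ le_rfl]
      simp only [F, dif_pos e]
    exact hsym.symm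
  · intro x hx y hy hs
    obtain ⟨t, ht⟩ := sc_nat hρfix hs
    have hall : ∀ t, (ρ ^ t) x < N ∧ F ((ρ ^ t) x) = F x := by
      intro t
      induction t with
      | zero => exact ⟨by simp; omega, by simp⟩
      | succ t ih =>
        rw [pow_succ', Perm.mul_apply]
        exact ⟨hρN _ ih.1, (hcol _ ih.1).trans ih.2⟩
    have := (hall t).2
    rw [ht, hF0 x hx, hF0 y hy] at this
    exact this.symm

end Pool.Agent.K1H35.LK
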